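import Pool.Agent.Helper27.E7.ATab

set_option autoImplicit false
set_option maxRecDepth 100000

namespace Pool.Agent.Helper27.E7.A
open Pool.Agent.H122R2.N6

theorem part000000 : part7 q CST 0 0 0 0 0 0 = true := by decide +kernel

theorem part000001 : part7 q CST 0 0 0 0 0 1 = true := by decide +kernel

theorem part000010 : part7 q CST 0 0 0 0 1 0 = true := by decide +kernel

theorem part000011 : part7 q CST 0 0 0 0 1 1 = true := by decide +kernel

theorem part000100 : part7 q CST 0 0 0 1 0 0 = true := by decide +kernel

theorem part000101 : part7 q CST 0 0 0 1 0 1 = true := by decide +kernel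

theorem part000110 : part7 q CST 0 0 0 1 1 0 = true := by decide +kernel

theorem part000111 : part7 q CST 0 0 0 1 1 1 = true := by decide +kernel

theorem part001000 : part7 q CST 0 0 1 0 0 0 = true := by decide +kernel

theorem part001001 : part7 q CST 0 0 1 0 0 1 = true := by decide +kernel

theorem part001010 : part7 q CST 0 0 1 0 1 0 = true := by decide +kernel

theorem part001011 : part7 q CST 0 0 1 0 1 1 = true := by decide +kernel

theorem part001100 : part7 q CST 0 0 1 1 0 0 = true := by decide +kernel

theorem part001101 : part7 q CST 0 0 1 1 0 1 = true := by decide +kernel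

theorem part001110 : part7 q CST 0 0 1 1 1 0 = true := by decide +kernel

theorem part001111 : part7 q CST 0 0 1 1 1 1 = true := by decide +kernel

end Pool.Agent.Helper27.E7.A
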