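import Pool.Agent.Helper27.E7.ATab

set_option autoImplicit false
set_option maxRecDepth 100000

namespace Pool.Agent.Helper27.E7.A
open Pool.Agent.H122R2.N6

theorem part010000 : part7 q CST 0 1 0 0 0 0 = true := by decide +kernel

theorem part010001 : part7 q CST 0 1 0 0 0 1 = true := by decide +kernel

theorem part010010 : part7 q CST 0 1 0 0 1 0 = true := by decide +kernel

theorem part010011 : part7 q CST 0 1 0 0 1 1 = true := by decide +kernel

theorem part010100 : part7 q CST 0 1 0 1 0 0 = true := by decide +kernel

theorem part010101 : part7 q CST 0 1 0 1 0 1 = true := by decide +kernel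

theorem part010110 : part7 q CST 0 1 0 1 1 0 = true := by decide +kernel

theorem part010111 : part7 q CST 0 1 0 1 1 1 = true := by decide +kernel

theorem part011000 : part7 q CST 0 1 1 0 0 0 = true := by decide +kernel

theorem part011001 : part7 q CST 0 1 1 0 0 1 = true := by decide +kernel

theorem part011010 : part7 q CST 0 1 1 0 1 0 = true := by decide +kernel

theorem part011011 : part7 q CST 0 1 1 0 1 1 = true := by decide +kernel

theorem part011100 : part7 q CST 0 1 1 1 0 0 = true := by decide +kernel

theorem part011101 : part7 q CST 0 1 1 1 0 1 = true := by decide +kernel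

theorem part011110 : part7 q CST 0 1 1 1 1 0 = true := by decide +kernel

theorem part011111 : part7 q CST 0 1 1 1 1 1 = true := by decide +kernel

end Pool.Agent.Helper27.E7.A
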