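import Pool.Agent.Helper27.E7.ATab

set_option autoImplicit false
set_option maxRecDepth 100000

namespace Pool.Agent.Helper27.E7.A
open Pool.Agent.H122R2.N6

theorem part110000 : part7 q CST 1 1 0 0 0 0 = true := by decide +kernel

theorem part110001 : part7 q CST 1 1 0 0 0 1 = true := by decide +kernel

theorem part110010 : part7 q CST 1 1 0 0 1 0 = true := by decide +kernel

theorem part110011 : part7 q CST 1 1 0 0 1 1 = true := by decide +kernel

theorem part110100 : part7 q CST 1 1 0 1 0 0 = true := by decide +kernel

theorem part110101 : part7 q CST 1 1 0 1 0 1 = true := by decide +kernel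

theorem part110110 : part7 q CST 1 1 0 1 1 0 = true := by decide +kernel

theorem part110111 : part7 q CST 1 1 0 1 1 1 = true := by decide +kernel

theorem part111000 : part7 q CST 1 1 1 0 0 0 = true := by decide +kernel

theorem part111001 : part7 q CST 1 1 1 0 0 1 = true := by decide +kernel

theorem part111010 : part7 q CST 1 1 1 0 1 0 = true := by decide +kernel

theorem part111011 : part7 q CST 1 1 1 0 1 1 = true := by decide +kernel

theorem part111100 : part7 q CST 1 1 1 1 0 0 = true := by decide +kernel

theorem part111101 : part7 q CST 1 1 1 1 0 1 = true := by decide +kernel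

theorem part111110 : part7 q CST 1 1 1 1 1 0 = true := by decide +kernel

theorem part111111 : part7 q CST 1 1 1 1 1 1 = true := by decide +kernel

end Pool.Agent.Helper27.E7.A
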