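import Pool.Agent.Helper27.E7.ATabL

set_option autoImplicit false
set_option maxRecDepth 100000

namespace Pool.Agent.Helper27.E7.A
open Pool.Agent.H122R2.N6

theorem cS0 : chkS tq 0 = true := by decide +kernel

theorem cW0 : chkW tq OFF 0 = true := by decide +kernel

theorem cD0_0 : chkD8 tq l4 D2 OL CN 0 0 = true := by decide +kernel

theorem cD0_1 : chkD8 tq l4 D2 OL CN 0 1 = true := by decide +kernel

theorem cD0_2 : chkD8 tq l4 D2 OL CN 0 2 = true := by decide +kernel

theorem cD0_3 : chkD8 tq l4 D2 OL CN 0 3 = true := by decide +kernel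

theorem cD0_4 : chkD8 tq l4 D2 OL CN 0 4 = true := by decide +kernel

theorem cD0_5 : chkD8 tq l4 D2 OL CN 0 5 = true := by decide +kernel

theorem cD0_6 : chkD8 tq l4 D2 OL CN 0 6 = true := by decide +kernel

theorem cD0_7 : chkD8 tq l4 D2 OL CN 0 7 = true := by decide +kernel

end Pool.Agent.Helper27.E7.A
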