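import Pool.Agent.Helper27.E7.ATabL

set_option autoImplicit false
set_option maxRecDepth 100000

namespace Pool.Agent.Helper27.E7.A
open Pool.Agent.H122R2.N6

theorem cS1 : chkS tq 1 = true := by decide +kernel

theorem cW1 : chkW tq OFF 1 = true := by decide +kernel

theorem cD1_0 : chkD8 tq l4 D2 OL CN 1 0 = true := by decide +kernel

theorem cD1_1 : chkD8 tq l4 D2 OL CN 1 1 = true := by decide +kernel

theorem cD1_2 : chkD8 tq l4 D2 OL CN 1 2 = true := by decide +kernel

theorem cD1_3 : chkD8 tq l4 D2 OL CN 1 3 = true := by decide +kernel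

theorem cD1_4 : chkD8 tq l4 D2 OL CN 1 4 = true := by decide +kernel

theorem cD1_5 : chkD8 tq l4 D2 OL CN 1 5 = true := by decide +kernel

theorem cD1_6 : chkD8 tq l4 D2 OL CN 1 6 = true := by decide +kernel

theorem cD1_7 : chkD8 tq l4 D2 OL CN 1 7 = true := by decide +kernel

end Pool.Agent.Helper27.E7.A
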