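import Pool.Agent.Helper27.E7.ATab

set_option autoImplicit false
set_option maxRecDepth 100000

namespace Pool.Agent.Helper27.E7.A
open Pool.Agent.H122R2.N6

theorem cs_000000 : sym7p q 0 0 0 0 0 0 = true := by decide +kernel

theorem cs_000001 : sym7p q 0 0 0 0 0 1 = true := by decide +kernel

theorem cs_000010 : sym7p q 0 0 0 0 1 0 = true := by decide +kernel

theorem cs_000011 : sym7p q 0 0 0 0 1 1 = true := by decide +kernel

theorem cs_000100 : sym7p q 0 0 0 1 0 0 = true := by decide +kernel

theorem cs_000101 : sym7p q 0 0 0 1 0 1 = true := by decide +kernel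

theorem cs_000110 : sym7p q 0 0 0 1 1 0 = true := by decide +kernel

theorem cs_000111 : sym7p q 0 0 0 1 1 1 = true := by decide +kernel

theorem cs_001000 : sym7p q 0 0 1 0 0 0 = true := by decide +kernel

theorem cs_001001 : sym7p q 0 0 1 0 0 1 = true := by decide +kernel

theorem cs_001010 : sym7p q 0 0 1 0 1 0 = true := by decide +kernel

theorem cs_001011 : sym7p q 0 0 1 0 1 1 = true := by decide +kernel

theorem cs_001100 : sym7p q 0 0 1 1 0 0 = true := by decide +kernel

theorem cs_001101 : sym7p q 0 0 1 1 0 1 = true := by decide +kernel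

theorem cs_001110 : sym7p q 0 0 1 1 1 0 = true := by decide +kernel

theorem cs_001111 : sym7p q 0 0 1 1 1 1 = true := by decide +kernel

theorem cs_010000 : sym7p q 0 1 0 0 0 0 = true := by decide +kernel

theorem cs_010001 : sym7p q 0 1 0 0 0 1 = true := by decide +kernel

theorem cs_010010 : sym7p q 0 1 0 0 1 0 = true := by decide +kernel

theorem cs_010011 : sym7p q 0 1 0 0 1 1 = true := by decide +kernel

theorem cs_010100 : sym7p q 0 1 0 1 0 0 = true := by decide +kernel

theorem cs_010101 : sym7p q 0 1 0 1 0 1 = true := by decide +kernel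

theorem cs_010110 : sym7p q 0 1 0 1 1 0 = true := by decide +kernel

theorem cs_010111 : sym7p q 0 1 0 1 1 1 = true := by decide +kernel

theorem cs_011000 : sym7p q 0 1 1 0 0 0 = true := by decide +kernel

theorem cs_011001 : sym7p q 0 1 1 0 0 1 = true := by decide +kernel

theorem cs_011010 : sym7p q 0 1 1 0 1 0 = true := by decide +kernel

theorem cs_011011 : sym7p q 0 1 1 0 1 1 = true := by decide +kernel

theorem cs_011100 : sym7p q 0 1 1 1 0 0 = true := by decide +kernel

theorem cs_011101 : sym7p q 0 1 1 1 0 1 = true := by decide +kernel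

theorem cs_011110 : sym7p q 0 1 1 1 1 0 = true := by decide +kernel

theorem cs_011111 : sym7p q 0 1 1 1 1 1 = true := by decide +kernel

theorem cs_100000 : sym7p q 1 0 0 0 0 0 = true := by decide +kernel

theorem cs_100001 : sym7p q 1 0 0 0 0 1 = true := by decide +kernel

theorem cs_100010 : sym7p q 1 0 0 0 1 0 = true := by decide +kernel

theorem cs_100011 : sym7p q 1 0 0 0 1 1 = true := by decide +kernel

theorem cs_100100 : sym7p q 1 0 0 1 0 0 = true := by decide +kernel

theorem cs_100101 : sym7p q 1 0 0 1 0 1 = true := by decide +kernel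

theorem cs_100110 : sym7p q 1 0 0 1 1 0 = true := by decide +kernel

theorem cs_100111 : sym7p q 1 0 0 1 1 1 = true := by decide +kernel

theorem cs_101000 : sym7p q 1 0 1 0 0 0 = true := by decide +kernel

theorem cs_101001 : sym7p q 1 0 1 0 0 1 = true := by decide +kernel

theorem cs_101010 : sym7p q 1 0 1 0 1 0 = true := by decide +kernel

theorem cs_101011 : sym7p q 1 0 1 0 1 1 = true := by decide +kernel

theorem cs_101100 : sym7p q 1 0 1 1 0 0 = true := by decide +kernel

theorem cs_101101 : sym7p q 1 0 1 1 0 1 = true := by decide +kernel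

theorem cs_101110 : sym7p q 1 0 1 1 1 0 = true := by decide +kernel

theorem cs_101111 : sym7p q 1 0 1 1 1 1 = true := by decide +kernel

theorem cs_110000 : sym7p q 1 1 0 0 0 0 = true := by decide +kernel

theorem cs_110001 : sym7p q 1 1 0 0 0 1 = true := by decide +kernel

theorem cs_110010 : sym7p q 1 1 0 0 1 0 = true := by decide +kernel

theorem cs_110011 : sym7p q 1 1 0 0 1 1 = true := by decide +kernel

theorem cs_110100 : sym7p q 1 1 0 1 0 0 = true := by decide +kernel

theorem cs_110101 : sym7p q 1 1 0 1 0 1 = true := by decide +kernel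

theorem cs_110110 : sym7p q 1 1 0 1 1 0 = true := by decide +kernel

theorem cs_110111 : sym7p q 1 1 0 1 1 1 = true := by decide +kernel

theorem cs_111000 : sym7p q 1 1 1 0 0 0 = true := by decide +kernel

theorem cs_111001 : sym7p q 1 1 1 0 0 1 = true := by decide +kernel

theorem cs_111010 : sym7p q 1 1 1 0 1 0 = true := by decide +kernel

theorem cs_111011 : sym7p q 1 1 1 0 1 1 = true := by decide +kernel

theorem cs_111100 : sym7p q 1 1 1 1 0 0 = true := by decide +kernel

theorem cs_111101 : sym7p q 1 1 1 1 0 1 = true := by decide +kernel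

theorem cs_111110 : sym7p q 1 1 1 1 1 0 = true := by decide +kernel

theorem cs_111111 : sym7p q 1 1 1 1 1 1 = true := by decide +kernel

theorem cs7 : sym7 q = true := (B2_intro (B2_intro (B2_intro (B2_intro (B2_intro (B2_intro cs_000000 cs_000001) (B2_intro cs_000010 cs_000011)) (B2_intro (B2_intro cs_000100 cs_000101) (B2_intro cs_000110 cs_000111))) (B2_intro (B2_intro (B2_intro cs_001000 cs_001001) (B2_intro cs_001010 cs_001011)) (B2_intro (B2_intro cs_001100 cs_001101) (B2_intro cs_001110 cs_001111)))) (B2_intro (B2_intro (B2_intro (B2_intro cs_010000 cs_010001) (B2_intro cs_010010 cs_010011)) (B2_intro (B2_intro cs_010100 cs_010101) (B2_intro cs_010110 cs_010111))) (B2_intro (B2_intro (B2_intro cs_011000 cs_011001) (B2_intro cs_011010 cs_011011)) (B2_intro (B2_intro cs_011100 cs_011101) (B2_intro cs_011110 cs_011111))))) (B2_intro (B2_intro (B2_intro (B2_intro (B2_intro cs_100000 cs_100001) (B2_intro cs_100010 cs_100011)) (B2_intro (B2_intro cs_100100 cs_100101) (B2_intro cs_100110 cs_100111))) (B2_intro (B2_intro (B2_intro cs_101000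 cs_101001) (B2_intro cs_101010 cs_101011)) (B2_intro (B2_intro cs_101100 cs_101101) (B2_intro cs_101110 cs_101111)))) (B2_intro (B2_intro (B2_intro (B2_intro cs_110000 cs_110001) (B2_intro cs_110010 cs_110011)) (B2_intro (B2_intro cs_110100 cs_110101) (B2_intro cs_110110 cs_110111))) (B2_intro (B2_intro (B2_intro cs_111000 cs_111001) (B2_intro cs_111010 cs_111011)) (B2_intro (B2_intro cs_111100 cs_111101) (B2_intro cs_111110 cs_111111))))))

end Pool.Agent.Helper27.E7.A
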