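import Pool.Agent.Helper27.E7.Obj
import Pool.Agent.Helper27.E7.ASym
import Pool.Agent.Helper27.E7.APsd0
import Pool.Agent.Helper27.E7.APsd1
import Pool.Agent.Helper27.E7.APsd2
import Pool.Agent.Helper27.E7.APart00
import Pool.Agent.Helper27.E7.APart01
import Pool.Agent.Helper27.E7.APart10
import Pool.Agent.Helper27.E7.APart11

set_option autoImplicit false
set_option maxRecDepth 100000
set_option maxHeartbeats 400000
open Finset

namespace Pool.Agent.Helper27.E7.A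
open Pool.Agent.H122R2.N6 Pool.Agent.H37R3.K5

def obp (p0 p1 p2 p3 : ℕ) : Bool := B2 fun i0 => B2 fun i1 => B2 fun i2 => B2 fun i3 => B2 fun i4 => B2 fun i5 => B2 fun j0 => B2 fun j1 => B2 fun j2 => B2 fun j3 => B2 fun j4 => B2 fun j5 =>
    Nat.beq (ob (cd4 p0 p1 p2 p3) (cd6 i0 i1 i2 i3 i4 i5) (cd6 j0 j1 j2 j3 j4 j5))
      (Nat.mul 2097152 (Nat.add (Nat.mul i0 j0) (Nat.add (Nat.mul i1 j1) (Nat.add (Nat.mul i2 j2) (Nat.add (Nat.mul i3 j3) (Nat.add (Nat.mul i4 j4) (Nat.add (Nat.mul i5 j5) (Nat.add (Nat.mul (x4 p0 i0 i1 i2) (x4 p0 j0 j1 j2)) (Nat.add (Nat.mul (x4 p1 i0 i3 i4) (x4 p1 j0 j3 j4)) (Nat.add (Nat.mul (x4 p2 i1 i3 i5) (x4 p2 j1 j3 j5)) ((Nat.mul (x4 p3 i2 i4 i5) (x4 p3 j2 j4 j5)))))))))))))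

theorem ob_0000 : obp 0 0 0 0 = true := by decide +kernel

theorem ob_0001 : obp 0 0 0 1 = true := by decide +kernel

theorem ob_0010 : obp 0 0 1 0 = true := by decide +kernel

theorem ob_0011 : obp 0 0 1 1 = true := by decide +kernel

theorem ob_0100 : obp 0 1 0 0 = true := by decide +kernel

theorem ob_0101 : obp 0 1 0 1 = true := by decide +kernel

theorem ob_0110 : obp 0 1 1 0 = true := by decide +kernel

theorem ob_0111 : obp 0 1 1 1 = true := by decide +kernel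

theorem ob_1000 : obp 1 0 0 0 = true := by decide +kernel

theorem ob_1001 : obp 1 0 0 1 = true := by decide +kernel

theorem ob_1010 : obp 1 0 1 0 = true := by decide +kernel

theorem ob_1011 : obp 1 0 1 1 = true := by decide +kernel

theorem ob_1100 : obp 1 1 0 0 = true := by decide +kernel

theorem ob_1101 : obp 1 1 0 1 = true := by decide +kernel

theorem ob_1110 : obp 1 1 1 0 = true := by decide +kernel

theorem ob_1111 : obp 1 1 1 1 = true := by decide +kernel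


theorem ob_chk : (B2 fun p0 => B2 fun p1 => B2 fun p2 => B2 fun p3 => obp p0 p1 p2 p3) = true := (B2_intro (B2_intro (B2_intro (B2_intro ob_0000 ob_0001) (B2_intro ob_0010 ob_0011)) (B2_intro (B2_intro ob_0100 ob_0101) (B2_intro ob_0110 ob_0111))) (B2_intro (B2_intro (B2_intro ob_1000 ob_1001) (B2_intro ob_1010 ob_1011)) (B2_intro (B2_intro ob_1100 ob_1101) (B2_intro ob_1110 ob_1111))))

theorem ob_eq (p0 p1 p2 p3 i0 i1 i2 i3 i4 i5 j0 j1 j2 j3 j4 j5 : ℕ) (hp0 : Bt p0) (hp1 : Bt p1) (hp2 : Bt p2) (hp3 : Bt p3) (hi0 : Bt i0) (hi1 : Bt i1) (hi2 : Bt i2) (hi3 : Bt i3) (hi4 : Bt i4) (hi5 : Bt i5) (hj0 : Bt j0) (hj1 : Bt j1) (hj2 : Bt j2) (hj3 : Bt j3) (hj4 : Bt j4) (hj5 : Bt j5) :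
    ob (cd4 p0 p1 p2 p3) (cd6 i0 i1 i2 i3 i4 i5) (cd6 j0 j1 j2 j3 j4 j5)
      = 2097152 * (i0 * j0 + i1 * j1 + i2 * j2 + i3 * j3 + i4 * j4 + i5 * j5 + (x4 p0 i0 i1 i2) * (x4 p0 j0 j1 j2) + (x4 p1 i0 i3 i4) * (x4 p1 j0 j3 j4) + (x4 p2 i1 i3 i5) * (x4 p2 j1 j3 j5) + (x4 p3 i2 i4 i5) * (x4 p3 j2 j4 j5)) := by
  have h := Nat.eq_of_beq_eq_true (B2_true (B2_true (B2_true (B2_true (B2_true (B2_true (B2_true (B2_true (B2_true (B2_true (B2_true (B2_true (B2_true (B2_true (B2_true (B2_true ob_chk hp0) hp1) hp2) hp3) hi0) hi1) hi2) hi3) hi4) hi5) hj0) hj1) hj2) hj3) hj4) hj5)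
  rw [h]
  simp only [Nat.add_eq, Nat.mul_eq]
  ring

theorem aS : ∀ r < 3, chkS tq r = true := by
  intro r hr
  interval_cases r
  exacts [cS0, cS1, cS2]

theorem aW : ∀ r < 3, chkW tq OFF r = true := by
  intro r hr
  interval_cases r
  exacts [cW0, cW1, cW2]

theorem aD : ∀ r < 3, chkD tq l4 D2 OL CN r = true := by
  intro r hr
  refine chkD_of fun a ha => ?_
  interval_cases r <;> interval_cases a
  exacts [cD0_0, cD0_1, cD0_2, cD0_3, cD0_4, cD0_5, cD0_6, cD0_7, cD1_0, cD1_1, cD1_2, cD1_3, cD1_4, cD1_5, cD1_6, cD1_7, cD2_0, cD2_1, cD2_2, cD2_3, cD2_4, cD2_5, cD2_6, cD2_7]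

theorem aP : ∀ x y z w u v, Bt x → Bt y → Bt z → Bt w → Bt u → Bt v →
    part7 q CST x y z w u v = true := by
  intro x y z w u v hx hy hz hw hu hv
  rcases hx with rfl | rfl <;> rcases hy with rfl | rfl <;> rcases hz with rfl | rfl <;>
    rcases hw with rfl | rfl <;> rcases hu with rfl | rfl <;> rcases hv with rfl | rfl
  exacts [part000000, part000001, part000010, part000011, part000100, part000101, part000110, part000111, part001000, part001001, part001010, part001011, part001100, part001101, part001110, part001111, part010000, part010001, part010010, part010011, part010100, part010101, part010110, part010111, part011000, part011001, part011010, part011011, part011100, part011101, part011110, part011111, part100000, part100001, part100010, part100011, part100100, part100101, part100110, part100111, part101000, part101001, part101010, part101011, part101100, part101101, part101110,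 part101111, part110000, part110001, part110010, part110011, part110100, part110101, part110110, part110111, part111000, part111001, part111010, part111011, part111100, part111101, part111110, part111111]

section
variable {V : Type} {E : V → V → V → V → ℕ}

theorem F1_ob (hE : Sy4 E) (a b c d e f g : V) : F1 E ob a b c d e f g
    = 2097152 * (E a b c f * E a b c g + E a b d f * E a b d g + E a c d f * E a c d g + E a b e f * E a b e g + E a c e f * E a c e g + E a d e f * E a d e g + E b c d f * E b c d g + E b c e f * E b c e g + E b d e f * E b d e g + E c d e f * E c d e g) := by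
  unfold F1
  rw [ob_eq _ _ _ _ _ _ _ _ _ _ _ _ _ _ _ _ (hE.b _ _ _ _) (hE.b _ _ _ _) (hE.b _ _ _ _) (hE.b _ _ _ _) (hE.b _ _ _ _) (hE.b _ _ _ _) (hE.b _ _ _ _) (hE.b _ _ _ _) (hE.b _ _ _ _) (hE.b _ _ _ _) (hE.b _ _ _ _) (hE.b _ _ _ _) (hE.b _ _ _ _) (hE.b _ _ _ _) (hE.b _ _ _ _) (hE.b _ _ _ _),
    hE.c a b c d f, hE.c a b c e f, hE.c a b d e f, hE.c a c d e f, hE.c a b c d g, hE.c a b c e g, hE.c a b d e g, hE.c a c d e g]

variable [Fintype V]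

theorem obj (hE : Sy4 E) : ∑ x : Fin 7 → V, (F1 E ob (x 0) (x 1) (x 2) (x 3) (x 4) (x 5) (x 6) : ℤ)
    = 20971520 * ((Fintype.card V : ℤ) ^ 2 * ∑ a, ∑ b, ∑ c, (∑ d, (E a b c d : ℤ)) ^ 2) := by
  set M := (Fintype.card V : ℤ) ^ 2 * ∑ a, ∑ b, ∑ c, (∑ d, (E a b c d : ℤ)) ^ 2 with hM
  have h0 : ∑ x : Fin 7 → V, ((E (x 0) (x 1) (x 2) (x 5) : ℤ) * (E (x 0) (x 1) (x 2) (x 6) : ℤ)) = M :=
    trip2 E ![0, 1, 2, 3, 4, 5, 6] (by decide)
  have h1 : ∑ x : Fin 7 → V, ((E (x 0) (x 1) (x 3) (x 5) : ℤ) * (E (x 0) (x 1) (x 3) (x 6) : ℤ)) = M :=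
    trip2 E ![0, 1, 3, 2, 4, 5, 6] (by decide)
  have h2 : ∑ x : Fin 7 → V, ((E (x 0) (x 2) (x 3) (x 5) : ℤ) * (E (x 0) (x 2) (x 3) (x 6) : ℤ)) = M :=
    trip2 E ![0, 2, 3, 1, 4, 5, 6] (by decide)
  have h3 : ∑ x : Fin 7 → V, ((E (x 0) (x 1) (x 4) (x 5) : ℤ) * (E (x 0) (x 1) (x 4) (x 6) : ℤ)) = M :=
    trip2 E ![0, 1, 4, 2, 3, 5, 6] (by decide)
  have h4 : ∑ x : Fin 7 → V, ((E (x 0) (x 2) (x 4) (x 5) : ℤ) * (E (x 0) (x 2) (x 4) (x 6) : ℤ)) = M :=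
    trip2 E ![0, 2, 4, 1, 3, 5, 6] (by decide)
  have h5 : ∑ x : Fin 7 → V, ((E (x 0) (x 3) (x 4) (x 5) : ℤ) * (E (x 0) (x 3) (x 4) (x 6) : ℤ)) = M :=
    trip2 E ![0, 3, 4, 1, 2, 5, 6] (by decide)
  have h6 : ∑ x : Fin 7 → V, ((E (x 1) (x 2) (x 3) (x 5) : ℤ) * (E (x 1) (x 2) (x 3) (x 6) : ℤ)) = M :=
    trip2 E ![1, 2, 3, 0, 4, 5, 6] (by decide)
  have h7 : ∑ x : Fin 7 → V, ((E (x 1) (x 2) (x 4) (x 5) : ℤ) * (E (x 1) (x 2) (x 4) (x 6) : ℤ)) = M :=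
    trip2 E ![1, 2, 4, 0, 3, 5, 6] (by decide)
  have h8 : ∑ x : Fin 7 → V, ((E (x 1) (x 3) (x 4) (x 5) : ℤ) * (E (x 1) (x 3) (x 4) (x 6) : ℤ)) = M :=
    trip2 E ![1, 3, 4, 0, 2, 5, 6] (by decide)
  have h9 : ∑ x : Fin 7 → V, ((E (x 2) (x 3) (x 4) (x 5) : ℤ) * (E (x 2) (x 3) (x 4) (x 6) : ℤ)) = M :=
    trip2 E ![2, 3, 4, 0, 1, 5, 6] (by decide)
  have e : ∀ x : Fin 7 → V, (F1 E ob (x 0) (x 1) (x 2) (x 3) (x 4) (x 5) (x 6) : ℤ) = 2097152 * ((E (x 0) (x 1) (x 2) (x 5) : ℤ) * (E (x 0) (x 1) (x 2) (x 6) : ℤ) + (E (x 0) (x 1) (x 3) (x 5) : ℤ) * (E (x 0) (x 1) (x 3) (x 6) : ℤ) + (E (x 0) (x 2) (x 3) (x 5) : ℤ) * (E (x 0) (x 2) (x 3) (x 6) : ℤ) + (E (x 0) (x 1) (x 4) (x 5) : ℤ) * (E (x 0) (x 1) (x 4) (x 6) : ℤ) + (E (x 0) (x 2) (x 4) (x 5) : ℤ) * (E (x 0) (x 2) (x 4) (x 6) : ℤ) + (E (x 0) (x 3) (x 4) (x 5) : ℤ) * (E (x 0) (x 3) (x 4) (x 6) : ℤ) + (E (x 1) (x 2) (x 3) (x 5) : ℤ) * (E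 (x 1) (x 2) (x 3) (x 6) : ℤ) + (E (x 1) (x 2) (x 4) (x 5) : ℤ) * (E (x 1) (x 2) (x 4) (x 6) : ℤ) + (E (x 1) (x 3) (x 4) (x 5) : ℤ) * (E (x 1) (x 3) (x 4) (x 6) : ℤ) + (E (x 2) (x 3) (x 4) (x 5) : ℤ) * (E (x 2) (x 3) (x 4) (x 6) : ℤ)) := by
    intro x
    rw [F1_ob hE]
    push_cast
    rfl
  rw [sum_congr rfl fun x _ => e x, ← mul_sum]
  simp only [sum_add_distrib]
  rw [h0, h1, h2, h3, h4, h5, h6, h7, h8, h9]
  ring

/-- the bound for the squares of the codegrees -/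
theorem bound (hE : Sy4 E) : 64 * ∑ a, ∑ b, ∑ c, (∑ d, (E a b c d : ℤ)) ^ 2
    ≤ 31 * (Fintype.card V : ℤ) ^ 5 := by
  have h := main7 hE q (tg tq) ob (OFF : ℤ) CST (fun c i j => rfl)
    (tg_psd (by decide) (by decide) aD aS aW) cs7 aP
  rw [obj hE] at h
  have hC : (CST : ℤ) = 21 * (OFF : ℤ) + 21 * 31 * 327680 := by
    unfold CST OFF; norm_num
  rw [hC] at h
  rcases Nat.eq_zero_or_pos (Fintype.card V) with h0 | h0
  · have : IsEmpty V := Fintype.card_eq_zero_iff.mp h0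
    simp
  · have hn : (0 : ℤ) < (Fintype.card V : ℤ) ^ 2 := by positivity
    have h1 : (Fintype.card V : ℤ) ^ 2 * (64 * ∑ a, ∑ b, ∑ c, (∑ d, (E a b c d : ℤ)) ^ 2)
        ≤ (Fintype.card V : ℤ) ^ 2 * (31 * (Fintype.card V : ℤ) ^ 5) := by
      have e1 : (Fintype.card V : ℤ) ^ 2 * (31 * (Fintype.card V : ℤ) ^ 5)
          = 31 * (Fintype.card V : ℤ) ^ 7 := by ring
      have e2 : (Fintype.card V : ℤ) ^ 2 * (64 * ∑ a, ∑ b, ∑ c, (∑ d, (E a b c d : ℤ)) ^ 2)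
          = 64 * ((Fintype.card V : ℤ) ^ 2 * ∑ a, ∑ b, ∑ c, (∑ d, (E a b c d : ℤ)) ^ 2) := by ring
      rw [e1, e2]
      nlinarith [h]
    exact le_of_mul_le_mul_left h1 hn

end
end Pool.Agent.Helper27.E7.A
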