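import Pool.Agent.Helper27.E7.Inv

/-! From families of four-sets to functions of four vertices. -/

set_option autoImplicit false
set_option maxRecDepth 100000
set_option maxHeartbeats 400000
open Finset

namespace Pool.Agent.Helper27.E7
open Pool.Agent.H122R2.N6 Pool.Agent.H37R3.K5

section
variable {V : Type} [DecidableEq V]

/-- the number of edges inside a set of vertices -/
def inside (H : Finset (Finset V)) (S : Finset V) : ℕ := (H.filter (fun e => e ⊆ S)).card

/-- the number of edges containing a set of vertices -/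
def codeg (H : Finset (Finset V)) (T : Finset V) : ℕ := (H.filter (fun e => T ⊆ e)).card

/-- 4-graphs in which every five vertices span an even number of edges -/
def EvenFour (H : Finset (Finset V)) : Prop :=
  (∀ e ∈ H, e.card = 4) ∧ ∀ S : Finset V, S.card = 5 → Even (inside H S)

def quad (H : Finset (Finset V)) (a b c d : V) : ℕ := if ({a, b, c, d} : Finset V) ∈ H then 1 else 0

theorem quad_bt (H : Finset (Finset V)) (a b c d : V) : Bt (quad H a b c d) := by
  unfold quad Bt
  split_ifs <;> simp

theorem quad_h2134 (H : Finset (Finset V)) (w x y z : V) : quad H x w y z = quad H w x y z := by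
  unfold quad
  rw [insert_comm]

theorem quad_h1324 (H : Finset (Finset V)) (w x y z : V) : quad H w y x z = quad H w x y z := by
  unfold quad
  rw [insert_comm y x]

theorem quad_e2 (H : Finset (Finset V)) (w x y z : V) : quad H w x z y = quad H w x y z := by
  unfold quad
  rw [pair_comm z y]

theorem quad_zero {H : Finset (Finset V)} (hH : ∀ e ∈ H, e.card = 4) (a c d : V) :
    quad H a a c d = 0 := by
  unfold quad
  rw [if_neg]
  intro h
  have h1 := hH _ h
  rw [insert_eq_of_mem (mem_insert_self _ _)] at h1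
  have h2 : ({a, c, d} : Finset V).card ≤ 3 := card_le_three
  omega

theorem quad_one {H : Finset (Finset V)} {a b c d : V} : quad H a b c d = 1 ↔ ({a, b, c, d} : Finset V) ∈ H := by
  unfold quad
  split_ifs with h
  · simp [h]
  · simp [h]

/-- the edges inside a five-set -/
theorem inside5 {H : Finset (Finset V)} (hH : ∀ e ∈ H, e.card = 4) (S : Finset V) (hS : S.card = 5) :
    inside H S = ∑ x ∈ S, if S.erase x ∈ H then 1 else 0 := by
  unfold inside
  rw [← card_filter]
  symm
  apply card_bij (fun x _ => S.erase x)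
  · intro x hx
    rw [mem_filter] at hx ⊢
    exact ⟨hx.2, erase_subset _ _⟩
  · intro x hx y hy hxy
    exact erase_injOn S (mem_filter.mp hx).1 (mem_filter.mp hy).1 hxy
  · intro e he
    rw [mem_filter] at he
    have h1 : (S \ e).card = 1 := by
      rw [card_sdiff_of_subset he.2, hH e he.1, hS]
    obtain ⟨x, hx⟩ := card_eq_one.mp h1
    have hxS : x ∈ S ∧ x ∉ e := by
      have : x ∈ S \ e := by rw [hx]; exact mem_singleton_self x
      rwa [mem_sdiff] at this
    have h2 : S.erase x = e := by
      rw [erase_eq, ← hx, Finset.sdiff_sdiff_eq_self he.2]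
    exact ⟨x, mem_filter.mpr ⟨hxS.1, by rw [h2]; exact he.1⟩, h2⟩

theorem erase5 {a b c d e : V} (h1 : a ≠ b) (h2 : a ≠ c) (h3 : a ≠ d) (h4 : a ≠ e) (h5 : b ≠ c)
    (h6 : b ≠ d) (h7 : b ≠ e) (h8 : c ≠ d) (h9 : c ≠ e) (h10 : d ≠ e) (f : Finset V → ℕ) :
    ∑ x ∈ ({a, b, c, d, e} : Finset V), f (({a, b, c, d, e} : Finset V).erase x)
      = f {b, c, d, e} + (f {a, c, d, e} + (f {a, b, d, e} + (f {a, b, c, e} + f {a, b, c, d}))) := by
  rw [sum_insert (by simp [h1, h2, h3, h4]), sum_insert (by simp [h5, h6, h7]),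
    sum_insert (by simp [h8, h9]), sum_insert (by simp [h10]), sum_singleton]
  have e1 : ({a, b, c, d, e} : Finset V).erase a = {b, c, d, e} := by
    ext x; simp only [mem_erase, mem_insert, mem_singleton]; constructor
    · rintro ⟨hx, h⟩; rcases h with h | h
      · exact absurd h hx
      · exact h
    · intro h
      refine ⟨?_, Or.inr h⟩
      rintro rfl
      rcases h with h | h | h | h
      exacts [h1 h, h2 h, h3 h, h4 h]
  have e2 : ({a, b, c, d, e} : Finset V).erase b = {a, c, d, e} := by
    rw [insert_comm a b]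
    ext x; simp only [mem_erase, mem_insert, mem_singleton]; constructor
    · rintro ⟨hx, h⟩; rcases h with h | h
      · exact absurd h hx
      · exact h
    · intro h
      refine ⟨?_, Or.inr h⟩
      rintro rfl
      rcases h with h | h | h | h
      exacts [h1 h.symm, h5 h, h6 h, h7 h]
  have e3 : ({a, b, c, d, e} : Finset V).erase c = {a, b, d, e} := by
    rw [insert_comm b c, insert_comm a c]
    ext x; simp only [mem_erase, mem_insert, mem_singleton]; constructor
    · rintro ⟨hx, h⟩; rcases h with h | h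
      · exact absurd h hx
      · exact h
    · intro h
      refine ⟨?_, Or.inr h⟩
      rintro rfl
      rcases h with h | h | h | h
      exacts [h2 h.symm, h5 h.symm, h8 h, h9 h]
  have e4 : ({a, b, c, d, e} : Finset V).erase d = {a, b, c, e} := by
    rw [insert_comm c d, insert_comm b d, insert_comm a d]
    ext x; simp only [mem_erase, mem_insert, mem_singleton]; constructor
    · rintro ⟨hx, h⟩; rcases h with h | h
      · exact absurd h hx
      · exact h
    · intro h
      refine ⟨?_, Or.inr h⟩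
      rintro rfl
      rcases h with h | h | h | h
      exacts [h3 h.symm, h6 h.symm, h8 h.symm, h10 h]
  have e5 : ({a, b, c, d, e} : Finset V).erase e = {a, b, c, d} := by
    rw [pair_comm d e, insert_comm c e, insert_comm b e, insert_comm a e]
    ext x; simp only [mem_erase, mem_insert, mem_singleton]; constructor
    · rintro ⟨hx, h⟩; rcases h with h | h
      · exact absurd h hx
      · exact h
    · intro h
      refine ⟨?_, Or.inr h⟩
      rintro rfl
      rcases h with h | h | h | h
      exacts [h4 h.symm, h7 h.symm, h9 h.symm, h10 h.symm]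
  rw [e1, e2, e3, e4, e5]

theorem card5 {a b c d e : V} (h1 : a ≠ b) (h2 : a ≠ c) (h3 : a ≠ d) (h4 : a ≠ e) (h5 : b ≠ c)
    (h6 : b ≠ d) (h7 : b ≠ e) (h8 : c ≠ d) (h9 : c ≠ e) (h10 : d ≠ e) :
    ({a, b, c, d, e} : Finset V).card = 5 := by
  rw [card_insert_of_notMem (by simp [h1, h2, h3, h4]), card_insert_of_notMem (by simp [h5, h6, h7]),
    card_insert_of_notMem (by simp [h8, h9]), card_insert_of_notMem (by simp [h10]), card_singleton]

theorem insideq {H : Finset (Finset V)} (hH : ∀ e ∈ H, e.card = 4) {a b c d e : V} (h1 : a ≠ b)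
    (h2 : a ≠ c) (h3 : a ≠ d) (h4 : a ≠ e) (h5 : b ≠ c)
    (h6 : b ≠ d) (h7 : b ≠ e) (h8 : c ≠ d) (h9 : c ≠ e) (h10 : d ≠ e) :
    inside H {a, b, c, d, e} = quad H b c d e + (quad H a c d e + (quad H a b d e
      + (quad H a b c e + quad H a b c d))) := by
  rw [inside5 hH _ (card5 h1 h2 h3 h4 h5 h6 h7 h8 h9 h10),
    erase5 h1 h2 h3 h4 h5 h6 h7 h8 h9 h10 (fun T => if T ∈ H then 1 else 0)]
  rfl

theorem quad_co {H : Finset (Finset V)} (hH : ∀ e ∈ H, e.card = 4) (o a b c d : V)
    (hE : ({o, a, b, c, d} : Finset V).card = 5 → Even (inside H {o, a, b, c, d})) :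
    x4 (quad H o a b c) (quad H o a b d) (quad H o a c d) (quad H o b c d) = quad H a b c d := by
  have z1 : ∀ a c d, quad H a a c d = 0 := quad_zero hH
  have z2 : ∀ a c d, quad H a c a d = 0 := fun a c d => by rw [quad_h1324]; exact z1 a c d
  have z3 : ∀ a c d, quad H a c d a = 0 := fun a c d => by rw [quad_e2, quad_h1324]; exact z1 a c d
  have z4 : ∀ a c d, quad H c a a d = 0 := fun a c d => by rw [quad_h2134]; exact z2 a c d
  have z5 : ∀ a c d, quad H c a d a = 0 := fun a c d => by rw [quad_h2134]; exact z3 a c d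
  have z6 : ∀ a c d, quad H c d a a = 0 := fun a c d => by rw [quad_h1324, quad_h2134]; exact z3 a c d
  have key : ∀ n, Bt n → x4 0 0 0 n = n ∧ x4 0 0 n 0 = n ∧ x4 0 n 0 0 = n ∧ x4 n 0 0 0 = n
      ∧ x4 n n 0 0 = 0 ∧ x4 n 0 n 0 = 0 ∧ x4 n 0 0 n = 0 ∧ x4 0 n n 0 = 0 ∧ x4 0 n 0 n = 0
      ∧ x4 0 0 n n = 0 := by
    intro n hn
    rcases hn with rfl | rfl <;> decide
  have hb := quad_bt H
  by_cases h1 : o = a
  · subst h1
    rw [z1, z1, z1]
    exact (key _ (hb _ _ _ _)).1
  by_cases h2 : o = b
  · subst h2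
    rw [z2, z2, z1, quad_h2134 H a o c d]
    exact (key _ (hb _ _ _ _)).2.1
  by_cases h3 : o = c
  · subst h3
    rw [z3, z2, z2, quad_h1324 H a o b d, quad_h2134 H a o b d]
    exact (key _ (hb _ _ _ _)).2.2.1
  by_cases h4 : o = d
  · subst h4
    rw [z3, z3, z3, quad_e2 H a b o c, quad_h1324 H a o b c, quad_h2134 H a o b c]
    exact (key _ (hb _ _ _ _)).2.2.2.1
  by_cases h5 : a = b
  · subst h5
    rw [z4, z4, z1]
    exact (key _ (hb _ _ _ _)).2.2.2.2.2.2.2.2.2
  by_cases h6 : a = c
  · subst h6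
    rw [z5, z4, z2, quad_h1324 H o a b d]
    exact (key _ (hb _ _ _ _)).2.2.2.2.2.2.2.2.1
  by_cases h7 : a = d
  · subst h7
    rw [z5, z5, z3, quad_e2 H o b a c, quad_h1324 H o a b c]
    exact (key _ (hb _ _ _ _)).2.2.2.2.2.2.1
  by_cases h8 : b = c
  · subst h8
    rw [z6, z4, z4]
    exact (key _ (hb _ _ _ _)).2.2.2.2.2.2.2.1
  by_cases h9 : b = d
  · subst h9
    rw [z6, z5, z5, quad_e2 H o a b c]
    exact (key _ (hb _ _ _ _)).2.2.2.2.2.1
  by_cases h10 : c = d
  · subst h10
    rw [z6, z6, z6]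
    exact (key _ (hb _ _ _ _)).2.2.2.2.1
  · have h := hE (card5 h1 h2 h3 h4 h5 h6 h7 h8 h9 h10)
    rw [insideq hH h1 h2 h3 h4 h5 h6 h7 h8 h9 h10] at h
    have b1 := hb o a b c
    have b2 := hb o a b d
    have b3 := hb o a c d
    have b4 := hb o b c d
    have b5 := hb a b c d
    unfold Bt at b1 b2 b3 b4 b5
    obtain ⟨k, hk⟩ := h
    show (quad H o a b c + (quad H o a b d + (quad H o a c d + quad H o b c d))) % 2 = _
    omega

theorem quad_c {H : Finset (Finset V)} (hE : EvenFour H) (o a b c d : V) :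
    x4 (quad H o a b c) (quad H o a b d) (quad H o a c d) (quad H o b c d) = quad H a b c d :=
  quad_co hE.1 o a b c d (hE.2 _)

theorem quad_sy {H : Finset (Finset V)} (hE : EvenFour H) : Sy4 (quad H) where
  b := quad_bt H
  h2134 := quad_h2134 H
  h1324 := quad_h1324 H
  e2 := quad_e2 H
  c := quad_c hE

/-- codegrees -/
theorem quad_codeg {H : Finset (Finset V)} (hH : ∀ e ∈ H, e.card = 4) [Fintype V] {a b c : V}
    (h1 : a ≠ b) (h2 : a ≠ c) (h3 : b ≠ c) : ∑ d, quad H a b c d = codeg H {a, b, c} := by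
  have hc : ({a, b, c} : Finset V).card = 3 := by
    rw [card_insert_of_notMem (by simp [h1, h2]), card_insert_of_notMem (by simp [h3]), card_singleton]
  have hs : ∀ d : V, ({a, b, c, d} : Finset V) = insert d {a, b, c} := by
    intro d
    rw [pair_comm c d, insert_comm b d, insert_comm a d]
  have e : ∑ d, quad H a b c d = (univ.filter (fun d => insert d ({a, b, c} : Finset V) ∈ H)).card := by
    rw [card_filter]
    refine sum_congr rfl fun d _ => ?_
    unfold quad
    rw [hs]
  rw [e]
  unfold codeg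
  have hni : ∀ d, insert d ({a, b, c} : Finset V) ∈ H → d ∉ ({a, b, c} : Finset V) := by
    intro d hd hm
    have := hH _ hd
    rw [insert_eq_of_mem hm, hc] at this
    omega
  apply card_bij (fun d _ => insert d ({a, b, c} : Finset V))
  · intro d hd
    rw [mem_filter] at hd ⊢
    exact ⟨hd.2, subset_insert _ _⟩
  · intro d hd d' hd' hdd
    rw [mem_filter] at hd hd'
    have h4 : d ∈ insert d' ({a, b, c} : Finset V) := by rw [← hdd]; exact mem_insert_self _ _
    rcases mem_insert.mp h4 with h5 | h5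
    · exact h5
    · exact absurd h5 (hni d hd.2)
  · intro s hs
    rw [mem_filter] at hs
    have h4 : (s \ {a, b, c}).card = 1 := by
      rw [card_sdiff_of_subset hs.2, hH s hs.1, hc]
    obtain ⟨d, hd⟩ := card_eq_one.mp h4
    have h5 : insert d ({a, b, c} : Finset V) = s := by
      rw [insert_eq, ← hd, sdiff_union_of_subset hs.2]
    exact ⟨d, mem_filter.mpr ⟨mem_univ _, by rw [h5]; exact hs.1⟩, h5⟩

end
end Pool.Agent.Helper27.E7
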