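import Mathlib

/-! Sums over ordered tuples and over sets. -/

set_option autoImplicit false
set_option maxRecDepth 100000
set_option maxHeartbeats 400000
open Finset

namespace Pool.Agent.Helper27.E7

section
variable {V : Type} [Fintype V] [DecidableEq V]

open Classical in
theorem fiber_card (k : ℕ) (T : Finset V) (hT : T.card = k) :
    (univ.filter (fun x : Fin k → V => Function.Injective x ∧ univ.image x = T)).card
      = k.factorial := by
  have h1 : Fintype.card (Fin k ≃ T) = k.factorial := by
    rw [Fintype.card_equiv (T.equivFinOfCardEq hT).symm, Fintype.card_fin]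
  rw [← h1, ← card_univ]
  symm
  apply card_bij (fun (σ : Fin k ≃ T) _ => fun i => ((σ i : T) : V))
  · intro σ _
    rw [mem_filter]
    refine ⟨mem_univ _, fun i j hij => σ.injective (Subtype.ext hij), ?_⟩
    ext v
    rw [mem_image]
    constructor
    · rintro ⟨i, _, rfl⟩
      exact (σ i).2
    · intro hv
      exact ⟨σ.symm ⟨v, hv⟩, mem_univ _, by rw [Equiv.apply_symm_apply]⟩
  · intro σ _ τ _ h
    ext i
    exact congrFun h i
  · intro x hx
    obtain ⟨_, hx1, hx2⟩ := mem_filter.mp hx
    have hm : ∀ i, x i ∈ T := fun i => by rw [← hx2]; exact mem_image_of_mem _ (mem_univ _)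
    have hb : Function.Bijective (fun i => (⟨x i, hm i⟩ : T)) := by
      constructor
      · intro i j hij
        exact hx1 (congrArg Subtype.val hij)
      · rintro ⟨v, hv⟩
        rw [← hx2, mem_image] at hv
        obtain ⟨i, _, rfl⟩ := hv
        exact ⟨i, rfl⟩
    exact ⟨Equiv.ofBijective _ hb, mem_univ _, rfl⟩

open Classical in
theorem sum_inj (k : ℕ) (f : Finset V → ℤ) :
    ∑ x ∈ univ.filter (fun x : Fin k → V => Function.Injective x), f (univ.image x)
      = (k.factorial : ℤ) * ∑ T ∈ (univ : Finset V).powersetCard k, f T := by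
  have hmap : ∀ x ∈ univ.filter (fun x : Fin k → V => Function.Injective x),
      univ.image x ∈ (univ : Finset V).powersetCard k := by
    intro x hx
    rw [mem_powersetCard]
    refine ⟨subset_univ _, ?_⟩
    rw [card_image_of_injective _ (mem_filter.mp hx).2, card_univ, Fintype.card_fin]
  rw [← sum_fiberwise_of_maps_to hmap, mul_sum]
  refine sum_congr rfl fun T hT => ?_
  have e : ∑ x ∈ (univ.filter (fun x : Fin k → V => Function.Injective x)).filter
      (fun x => univ.image x = T), f (univ.image x)
      = ∑ x ∈ (univ.filter (fun x : Fin k → V => Function.Injective x)).filter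
      (fun x => univ.image x = T), f T :=
    sum_congr rfl fun x hx => by rw [(mem_filter.mp hx).2]
  rw [e, sum_const, filter_filter, fiber_card k T (mem_powersetCard.mp hT).2, nsmul_eq_mul]

open Classical in
theorem sum_tuple (k : ℕ) (g : (Fin k → V) → ℤ) (f : Finset V → ℤ)
    (h0 : ∀ x : Fin k → V, ¬ Function.Injective x → g x = 0)
    (h1 : ∀ x : Fin k → V, Function.Injective x → g x = f (univ.image x)) :
    ∑ x : Fin k → V, g x = (k.factorial : ℤ) * ∑ T ∈ (univ : Finset V).powersetCard k, f T := by
  rw [← sum_inj, sum_filter]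
  refine sum_congr rfl fun x _ => ?_
  split_ifs with h
  · exact h1 x h
  · exact h0 x h

theorem card_eq_pair (n : ℕ) (i j : Fin (n + 1)) (hij : i ≠ j) :
    (univ.filter (fun x : Fin (n + 1) → V => x i = x j)).card ≤ Fintype.card V ^ n := by
  have h : (univ : Finset (Fin n → V)).card = Fintype.card V ^ n := by
    rw [card_univ, Fintype.card_fun, Fintype.card_fin]
  rw [← h]
  refine card_le_card_of_injOn (fun x => fun k => x (j.succAbove k)) (fun _ _ => mem_univ _) ?_
  intro x hx y hy hxy
  have hx' := (mem_filter.mp hx).2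
  have hy' := (mem_filter.mp hy).2
  have e : ∀ k, k ≠ j → x k = y k := by
    intro k hk
    obtain ⟨m, rfl⟩ := Fin.exists_succAbove_eq hk
    exact congrFun hxy m
  funext k
  by_cases hk : k = j
  · rw [hk, ← hx', ← hy', e i hij]
  · exact e k hk

open Classical in
theorem card_noninj6 :
    (univ.filter (fun x : Fin 6 → V => ¬ Function.Injective x)).card ≤ 15 * Fintype.card V ^ 5 := by
  set P : Finset (Fin 6 × Fin 6) := univ.filter (fun p => p.1 < p.2) with hP
  have hPc : P.card = 15 := by rw [hP]; decide
  have hsub : univ.filter (fun x : Fin 6 → V => ¬ Function.Injective x)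
      ⊆ P.biUnion (fun p => univ.filter (fun x : Fin 6 → V => x p.1 = x p.2)) := by
    intro x hx
    have h := (mem_filter.mp hx).2
    rw [mem_biUnion]
    unfold Function.Injective at h
    push Not at h
    obtain ⟨i, j, hij, hne⟩ := h
    rcases lt_or_gt_of_ne hne with h1 | h1
    · exact ⟨(i, j), mem_filter.mpr ⟨mem_univ _, h1⟩, mem_filter.mpr ⟨mem_univ _, hij⟩⟩
    · exact ⟨(j, i), mem_filter.mpr ⟨mem_univ _, h1⟩, mem_filter.mpr ⟨mem_univ _, hij.symm⟩⟩
  calc _ ≤ (P.biUnion (fun p => univ.filter (fun x : Fin 6 → V => x p.1 = x p.2))).card :=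
        card_le_card hsub
    _ ≤ ∑ p ∈ P, (univ.filter (fun x : Fin 6 → V => x p.1 = x p.2)).card := card_biUnion_le
    _ ≤ ∑ p ∈ P, Fintype.card V ^ 5 :=
        sum_le_sum fun p hp => card_eq_pair 5 p.1 p.2 (mem_filter.mp hp).2.ne
    _ = 15 * Fintype.card V ^ 5 := by rw [sum_const, hPc, smul_eq_mul]

end
end Pool.Agent.Helper27.E7
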