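import Pool.Agent.Helper27.E7.Count
import Pool.Agent.Helper27.E7.Fam
import Pool.Agent.Helper27.E7.Ord

/-! Seven-tuples with an odd five-set. -/

set_option autoImplicit false
set_option maxRecDepth 100000
set_option maxHeartbeats 400000
open Finset

namespace Pool.Agent.Helper27.E7
open Pool.Agent.H122R2.N6 Pool.Agent.H37R3.K5

section
variable {V : Type}

/-- symmetric 0/1-valued functions of four vertices -/
structure Sy4w (E : V → V → V → V → ℕ) : Prop where
  b : ∀ w x y z, Bt (E w x y z)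
  h2134 : ∀ w x y z, E x w y z = E w x y z
  h1324 : ∀ w x y z, E w y x z = E w x y z
  e2 : ∀ w x y z, E w x z y = E w x y z

/-- all quintuples of a seven-tuple are even -/
def EvT (E : V → V → V → V → ℕ) (x : Fin 7 → V) : Prop := ∀ i j k l m : Fin 7,
  x4 (E (x i) (x j) (x k) (x l)) (E (x i) (x j) (x k) (x m)) (E (x i) (x j) (x l) (x m))
    (E (x i) (x k) (x l) (x m)) = E (x j) (x k) (x l) (x m)

theorem evT_sy {E : V → V → V → V → ℕ} (hw : Sy4w E) {x : Fin 7 → V} (hx : EvT E x) :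
    Sy4 (fun i j k l : Fin 7 => E (x i) (x j) (x k) (x l)) where
  b := fun _ _ _ _ => hw.b _ _ _ _
  h2134 := fun _ _ _ _ => hw.h2134 _ _ _ _
  h1324 := fun _ _ _ _ => hw.h1324 _ _ _ _
  e2 := fun _ _ _ _ => hw.e2 _ _ _ _
  c := fun i j k l m => hx i j k l m

theorem local7 {E : V → V → V → V → ℕ} (hw : Sy4w E) {x : Fin 7 → V} (hx : EvT E x)
    {q : ℕ → ℕ → ℕ → ℕ} {C : ℕ} (hs : sym7 q = true)
    (hc : ∀ x y z w u v, Bt x → Bt y → Bt z → Bt w → Bt u → Bt v → part7 q C x y z w u v = true) :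
    L7 E q (x 0) (x 1) (x 2) (x 3) (x 4) (x 5) (x 6) ≤ C :=
  leaf_all (evT_sy hw hx) hs hc 0 1 2 3 4 5 6

variable [Fintype V]

open Classical in
/-- the seven-tuples with an odd quintuple -/
noncomputable def badT (E : V → V → V → V → ℕ) : Finset (Fin 7 → V) := univ.filter (fun x => ¬ EvT E x)

theorem lower7w {E : V → V → V → V → ℕ} (hE : Sy4w E) (q : ℕ → ℕ → ℕ → ℕ) (O : ℤ)
    (hp : ∀ c < 16, ∀ x : V → ℕ, (∀ d, x d < 64) → 0 ≤ ∑ d, ∑ e, ((q c (x d) (x e) : ℤ) - O)) :
    O * (Fintype.card V : ℤ) ^ 7 ≤ ∑ x : Fin 7 → V, (F1 E q (x 0) (x 1) (x 2) (x 3) (x 4) (x 5) (x 6) : ℤ) := by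
  rw [conv7 (fun a b c d e f g => (F1 E q a b c d e f g : ℤ))]
  have e1 : O * (Fintype.card V : ℤ) ^ 7
      = ∑ a : V, ∑ b : V, ∑ c : V, ∑ d : V, ∑ e : V, ∑ f : V, ∑ g : V, O := by
    simp only [sum_const, card_univ, nsmul_eq_mul]
    ring
  rw [e1]
  refine sum_le_sum fun a _ => sum_le_sum fun b _ => sum_le_sum fun c _ => sum_le_sum fun d _ =>
    sum_le_sum fun e _ => ?_
  have h := hp (cd4 (E a b c d) (E a b c e) (E a b d e) (E a c d e))
    (cd4_lt (hE.b _ _ _ _) (hE.b _ _ _ _) (hE.b _ _ _ _) (hE.b _ _ _ _))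
    (fun f => cd6 (E a b c f) (E a b d f) (E a c d f) (E a b e f) (E a c e f) (E a d e f))
    (fun f => cd6_lt (hE.b _ _ _ _) (hE.b _ _ _ _) (hE.b _ _ _ _) (hE.b _ _ _ _) (hE.b _ _ _ _)
      (hE.b _ _ _ _))
  simp only [sum_sub_distrib] at h
  show ∑ f : V, ∑ g : V, O ≤ ∑ f : V, ∑ g : V,
    ((q (cd4 (E a b c d) (E a b c e) (E a b d e) (E a c d e))
    (cd6 (E a b c f) (E a b d f) (E a c d f) (E a b e f) (E a c e f) (E a d e f))
    (cd6 (E a b c g) (E a b d g) (E a c d g) (E a b e g) (E a c e g) (E a d e g)) : ℕ) : ℤ)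
  linarith

theorem F1_le {E : V → V → V → V → ℕ} (hE : Sy4w E) {q : ℕ → ℕ → ℕ → ℕ} {QM : ℕ}
    (hM : ∀ c < 16, ∀ i < 64, ∀ j < 64, q c i j ≤ QM) (a b c d e f g : V) :
    F1 E q a b c d e f g ≤ QM := by
  unfold F1
  exact hM _ (cd4_lt (hE.b _ _ _ _) (hE.b _ _ _ _) (hE.b _ _ _ _) (hE.b _ _ _ _))
    _ (cd6_lt (hE.b _ _ _ _) (hE.b _ _ _ _) (hE.b _ _ _ _) (hE.b _ _ _ _) (hE.b _ _ _ _)
      (hE.b _ _ _ _))
    _ (cd6_lt (hE.b _ _ _ _) (hE.b _ _ _ _) (hE.b _ _ _ _) (hE.b _ _ _ _) (hE.b _ _ _ _)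
      (hE.b _ _ _ _))

theorem L7_le {E : V → V → V → V → ℕ} (hE : Sy4w E) {q : ℕ → ℕ → ℕ → ℕ} {QM : ℕ}
    (hM : ∀ c < 16, ∀ i < 64, ∀ j < 64, q c i j ≤ QM) (a b c d e f g : V) :
    L7 E q a b c d e f g ≤ 21 * QM := by
  have h := F1_le hE hM
  unfold L7
  have h0 := h c d e f g a b
  have h1 := h b d e f g a c
  have h2 := h b c e f g a d
  have h3 := h b c d f g a e
  have h4 := h b c d e g a f
  have h5 := h b c d e f a g
  have h6 := h a d e f g b c
  have h7 := h a c e f g b d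
  have h8 := h a c d f g b e
  have h9 := h a c d e g b f
  have h10 := h a c d e f b g
  have h11 := h a b e f g c d
  have h12 := h a b d f g c e
  have h13 := h a b d e g c f
  have h14 := h a b d e f c g
  have h15 := h a b c f g d e
  have h16 := h a b c e g d f
  have h17 := h a b c e f d g
  have h18 := h a b c d g e f
  have h19 := h a b c d f e g
  have h20 := h a b c d e f g
  omega

/-- the bound for all symmetric functions -/
theorem main7R {E : V → V → V → V → ℕ} (hE : Sy4w E) (q t ob : ℕ → ℕ → ℕ → ℕ) (O : ℤ) (C QM : ℕ)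
    (hq : ∀ c i j, q c i j = t c i j + ob c i j)
    (hp : ∀ c < 16, ∀ x : V → ℕ, (∀ d, x d < 64) → 0 ≤ ∑ d, ∑ e, ((t c (x d) (x e) : ℤ) - O))
    (hs : sym7 q = true) (hc : ∀ x y z w u v, Bt x → Bt y → Bt z → Bt w → Bt u → Bt v → part7 q C x y z w u v = true)
    (hM : ∀ c < 16, ∀ i < 64, ∀ j < 64, q c i j ≤ QM) (hCM : C ≤ 21 * QM)
    (r : (Fin 7 → V) → ℤ) (R : ℤ)
    (hr1 : ∀ x, EvT E x → (F1 E ob (x 0) (x 1) (x 2) (x 3) (x 4) (x 5) (x 6) : ℤ) = r x)
    (hr2 : ∀ x, r x ≤ R) (hR : 0 ≤ R) :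
    21 * ∑ x : Fin 7 → V, r x + 21 * O * (Fintype.card V : ℤ) ^ 7
      ≤ C * (Fintype.card V : ℤ) ^ 7 + (21 * QM - C + 21 * R) * ((badT E).card : ℤ) := by
  classical
  have A := lower7w hE t O hp
  have hCM' : (C : ℤ) ≤ 21 * QM := by exact_mod_cast hCM
  have key : ∑ x : Fin 7 → V, (L7 E q (x 0) (x 1) (x 2) (x 3) (x 4) (x 5) (x 6) : ℤ)
      ≤ C * (Fintype.card V : ℤ) ^ 7 + (21 * QM - C) * ((badT E).card : ℤ) := by
    calc _ ≤ ∑ x : Fin 7 → V, ((C : ℤ) + (if ¬ EvT E x then (21 * QM - C : ℤ) else 0)) := by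
          refine sum_le_sum fun x _ => ?_
          by_cases hx : EvT E x
          · rw [if_neg (not_not.mpr hx), add_zero]
            exact_mod_cast local7 hE hx hs hc
          · rw [if_pos hx]
            have h := L7_le hE hM (x 0) (x 1) (x 2) (x 3) (x 4) (x 5) (x 6)
            have h' : (L7 E q (x 0) (x 1) (x 2) (x 3) (x 4) (x 5) (x 6) : ℤ) ≤ 21 * QM := by
              exact_mod_cast h
            linarith
      _ = C * (Fintype.card V : ℤ) ^ 7 + (21 * QM - C) * ((badT E).card : ℤ) := by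
          rw [sum_add_distrib, sum_const, card_univ, Fintype.card_fun, Fintype.card_fin, nsmul_eq_mul,
            ← sum_filter, sum_const, nsmul_eq_mul]
          unfold badT
          push_cast
          ring
  rw [sumL7 E q] at key
  have e : ∑ x : Fin 7 → V, (F1 E q (x 0) (x 1) (x 2) (x 3) (x 4) (x 5) (x 6) : ℤ)
      = ∑ x : Fin 7 → V, (F1 E t (x 0) (x 1) (x 2) (x 3) (x 4) (x 5) (x 6) : ℤ)
        + ∑ x : Fin 7 → V, (F1 E ob (x 0) (x 1) (x 2) (x 3) (x 4) (x 5) (x 6) : ℤ) := by
    rw [← sum_add_distrib]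
    refine sum_congr rfl fun x _ => ?_
    unfold F1
    rw [hq]
    push_cast
    rfl
  have hob : ∑ x : Fin 7 → V, r x - R * ((badT E).card : ℤ)
      ≤ ∑ x : Fin 7 → V, (F1 E ob (x 0) (x 1) (x 2) (x 3) (x 4) (x 5) (x 6) : ℤ) := by
    have h1 : R * ((badT E).card : ℤ) = ∑ x : Fin 7 → V, (if ¬ EvT E x then R else 0) := by
      rw [← sum_filter, sum_const, nsmul_eq_mul, mul_comm]
      rfl
    rw [h1, ← sum_sub_distrib]
    refine sum_le_sum fun x _ => ?_
    by_cases hx : EvT E x
    · rw [if_neg (not_not.mpr hx), sub_zero, hr1 x hx]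
    · rw [if_pos hx]
      have h2 := hr2 x
      have h3 : (0 : ℤ) ≤ (F1 E ob (x 0) (x 1) (x 2) (x 3) (x 4) (x 5) (x 6) : ℤ) := by positivity
      linarith
  rw [e] at key
  nlinarith [key, hob, A]

end

section
variable {V : Type} [Fintype V] [DecidableEq V]

/-- five-sets spanning an odd number of edges -/
def odds (H : Finset (Finset V)) : Finset (Finset V) :=
  ((univ : Finset V).powersetCard 5).filter (fun S => Odd (inside H S))

theorem quad_syw (H : Finset (Finset V)) : Sy4w (quad H) where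
  b := quad_bt H
  h2134 := quad_h2134 H
  h1324 := quad_h1324 H
  e2 := quad_e2 H

open Classical in
theorem five_count (H : Finset (Finset V)) :
    (univ.filter (fun y : Fin 5 → V => Function.Injective y ∧ univ.image y ∈ odds H)).card
      = 120 * (odds H).card := by
  have h := sum_tuple 5 (fun x : Fin 5 → V => if Function.Injective x then
      (if univ.image x ∈ odds H then (1 : ℤ) else 0) else 0)
      (fun T => if T ∈ odds H then 1 else 0) (fun x hx => if_neg hx) (fun x hx => if_pos hx)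
  have h3 : (∑ T ∈ (univ : Finset V).powersetCard 5, if T ∈ odds H then (1 : ℤ) else 0)
      = (odds H).card := by
    rw [sum_boole]
    congr 2
    ext T
    rw [mem_filter]
    refine ⟨fun h => h.2, fun h => ⟨?_, h⟩⟩
    unfold odds at h
    exact (mem_filter.mp h).1
  have h4 : (∑ x : Fin 5 → V, if Function.Injective x then
      (if univ.image x ∈ odds H then (1 : ℤ) else 0) else 0)
      = ((univ.filter (fun y : Fin 5 → V => Function.Injective y ∧ univ.image y ∈ odds H)).card : ℤ) := by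
    rw [← sum_boole]
    refine sum_congr rfl fun x _ => ?_
    by_cases h1 : Function.Injective x
    · rw [if_pos h1]
      by_cases h2 : univ.image x ∈ odds H
      · rw [if_pos h2, if_pos ⟨h1, h2⟩]
      · rw [if_neg h2, if_neg (fun h => h2 h.2)]
    · rw [if_neg h1, if_neg (fun h => h1 h.1)]
  rw [h3, h4] at h
  have h5 : ((5).factorial : ℤ) = 120 := by norm_num [Nat.factorial]
  rw [h5] at h
  exact_mod_cast h

open Classical in
theorem slice_count (H : Finset (Finset V)) (T : Finset (Fin 7)) (hT : T.card = 5) :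
    (univ.filter (fun x : Fin 7 → V => T.image x ∈ odds H)).card
      ≤ 120 * (odds H).card * Fintype.card V ^ 2 := by
  have hTc : (Tᶜ).card = 2 := by rw [card_compl, hT, Fintype.card_fin]
  have hu : (univ : Finset (Fin 2 → V)).card = Fintype.card V ^ 2 := by
    rw [card_univ, Fintype.card_fun, Fintype.card_fin]
  rw [← five_count, ← hu, ← card_product]
  refine card_le_card_of_injOn (fun x => (fun i => x (T.orderEmbOfFin hT i),
    fun i => x (Tᶜ.orderEmbOfFin hTc i))) ?_ ?_
  · intro x hx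
    have hx' := (mem_filter.mp (mem_coe.mp hx)).2
    rw [mem_coe, mem_product]
    refine ⟨mem_filter.mpr ⟨mem_univ _, ?_, ?_⟩, mem_univ _⟩
    · have h1 : (T.image x).card = 5 := by
        unfold odds at hx'
        exact (mem_powersetCard.mp (mem_filter.mp hx').1).2
      have h2 : (T.image x).card = T.card := by rw [h1, hT]
      have h3 := card_image_iff.mp h2
      intro i j hij
      exact (T.orderEmbOfFin hT).injective
        (h3 (mem_coe.mpr (orderEmbOfFin_mem _ _ _)) (mem_coe.mpr (orderEmbOfFin_mem _ _ _)) hij)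
    · have h4 : univ.image (fun i => x (T.orderEmbOfFin hT i)) = T.image x := by
        ext v
        rw [mem_image, mem_image]
        constructor
        · rintro ⟨i, _, rfl⟩
          exact ⟨_, orderEmbOfFin_mem _ _ _, rfl⟩
        · rintro ⟨i, hi, rfl⟩
          have h5 : i ∈ Set.range (T.orderEmbOfFin hT) := by
            rw [range_orderEmbOfFin]; exact hi
          obtain ⟨j, rfl⟩ := h5
          exact ⟨j, mem_univ _, rfl⟩
      show univ.image (fun i => x (T.orderEmbOfFin hT i)) ∈ odds H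
      rw [h4]
      exact hx'
  · intro x _ y _ hxy
    have h1 := (Prod.ext_iff.mp hxy).1
    have h2 := (Prod.ext_iff.mp hxy).2
    funext i
    by_cases hi : i ∈ T
    · have h5 : i ∈ Set.range (T.orderEmbOfFin hT) := by
        rw [range_orderEmbOfFin]; exact hi
      obtain ⟨j, rfl⟩ := h5
      exact congrFun h1 j
    · have h5 : i ∈ Set.range (Tᶜ.orderEmbOfFin hTc) := by
        rw [range_orderEmbOfFin]; exact mem_coe.mpr (mem_compl.mpr hi)
      obtain ⟨j, rfl⟩ := h5
      exact congrFun h2 j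

/-- few seven-tuples have an odd quintuple -/
theorem bad_count {H : Finset (Finset V)} (hH : ∀ e ∈ H, e.card = 4) :
    (badT (quad H)).card ≤ 2520 * (odds H).card * Fintype.card V ^ 2 := by
  classical
  set P := (univ : Finset (Fin 7)).powersetCard 5 with hP
  have hPc : P.card = 21 := by rw [hP, card_powersetCard, card_univ, Fintype.card_fin]; rfl
  have hsub : badT (quad H) ⊆ P.biUnion (fun T => univ.filter (fun x : Fin 7 → V => T.image x ∈ odds H)) := by
    intro x hx
    have h := (mem_filter.mp hx).2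
    unfold EvT at h
    push Not at h
    obtain ⟨i, j, k, l, m, hne⟩ := h
    have h1 : ({x i, x j, x k, x l, x m} : Finset V).card = 5
        ∧ ¬ Even (inside H {x i, x j, x k, x l, x m}) := by
      by_contra hcon
      apply hne
      refine quad_co hH _ _ _ _ _ fun hc => ?_
      by_contra h2
      exact hcon ⟨hc, h2⟩
    have h2 : ({i, j, k, l, m} : Finset (Fin 7)).image x = {x i, x j, x k, x l, x m} := by
      simp only [image_insert, image_singleton]
    rw [mem_biUnion]
    refine ⟨{i, j, k, l, m}, ?_, ?_⟩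
    · rw [hP, mem_powersetCard]
      refine ⟨subset_univ _, le_antisymm card_le_five ?_⟩
      rw [← h1.1, ← h2]
      exact card_image_le
    · rw [mem_filter, h2]
      refine ⟨mem_univ _, ?_⟩
      unfold odds
      rw [mem_filter, mem_powersetCard]
      exact ⟨⟨subset_univ _, h1.1⟩, Nat.not_even_iff_odd.mp h1.2⟩
  calc _ ≤ (P.biUnion (fun T => univ.filter (fun x : Fin 7 → V => T.image x ∈ odds H))).card :=
        card_le_card hsub
    _ ≤ ∑ T ∈ P, (univ.filter (fun x : Fin 7 → V => T.image x ∈ odds H)).card := card_biUnion_le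
    _ ≤ ∑ T ∈ P, 120 * (odds H).card * Fintype.card V ^ 2 :=
        sum_le_sum fun T hT => slice_count H T (mem_powersetCard.mp hT).2
    _ = 2520 * (odds H).card * Fintype.card V ^ 2 := by
        rw [sum_const, hPc, smul_eq_mul]; ring

end
end Pool.Agent.Helper27.E7
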