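import Pool.Agent.Helper27.E7.AFin
import Pool.Agent.Helper27.E7.Rob

/-! The bound for the squares of the codegrees, for all 4-graphs. -/

set_option autoImplicit false
set_option maxRecDepth 100000
set_option maxHeartbeats 400000
open Finset

namespace Pool.Agent.Helper27.E7.A
open Pool.Agent.H122R2.N6 Pool.Agent.H37R3.K5

def QM : ℕ := 440058320

theorem cM0 : chkM q QM 0 = true := by decide +kernel

theorem cM1 : chkM q QM 1 = true := by decide +kernel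

theorem cM2 : chkM q QM 2 = true := by decide +kernel

theorem cM3 : chkM q QM 3 = true := by decide +kernel

theorem cM4 : chkM q QM 4 = true := by decide +kernel

theorem cM5 : chkM q QM 5 = true := by decide +kernel

theorem cM6 : chkM q QM 6 = true := by decide +kernel

theorem cM7 : chkM q QM 7 = true := by decide +kernel

theorem cM8 : chkM q QM 8 = true := by decide +kernel

theorem cM9 : chkM q QM 9 = true := by decide +kernel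

theorem cM10 : chkM q QM 10 = true := by decide +kernel

theorem cM11 : chkM q QM 11 = true := by decide +kernel

theorem cM12 : chkM q QM 12 = true := by decide +kernel

theorem cM13 : chkM q QM 13 = true := by decide +kernel

theorem cM14 : chkM q QM 14 = true := by decide +kernel

theorem cM15 : chkM q QM 15 = true := by decide +kernel


theorem qM : ∀ c < 16, ∀ i < 64, ∀ j < 64, q c i j ≤ QM := by
  intro c hc i hi j hj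
  have h : chkM q QM c = true := by
    interval_cases c
    exacts [cM0, cM1, cM2, cM3, cM4, cM5, cM6, cM7, cM8, cM9, cM10, cM11, cM12, cM13, cM14, cM15]
  exact Nat.le_of_ble_eq_true (nall_true (nall_true h i hi) j hj)

section
variable {V : Type} {E : V → V → V → V → ℕ}

def rA (E : V → V → V → V → ℕ) (x : Fin 7 → V) : ℤ := 2097152 * ((E (x 0) (x 1) (x 2) (x 5) : ℤ) * (E (x 0) (x 1) (x 2) (x 6) : ℤ) + (E (x 0) (x 1) (x 3) (x 5) : ℤ) * (E (x 0) (x 1) (x 3) (x 6) : ℤ) + (E (x 0) (x 2) (x 3) (x 5) : ℤ) * (E (x 0) (x 2) (x 3) (x 6) : ℤ) + (E (x 0) (x 1) (x 4) (x 5) : ℤ) * (E (x 0) (x 1) (x 4) (x 6) : ℤ) + (E (x 0) (x 2) (x 4) (x 5) : ℤ) * (E (x 0) (x 2) (x 4) (x 6) : ℤ) + (E (x 0) (x 3) (x 4) (x 5) : ℤ) * (E (x 0) (x 3) (x 4) (x 6) : ℤ) + (E (x 1) (x 2) (x 3) (x 5) : ℤ) * (E (x 1) (x 2) (x 3) (x 6) : ℤ) + (E (x 1) (x 2) (x 4) (x 5) : ℤ) *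 (E (x 1) (x 2) (x 4) (x 6) : ℤ) + (E (x 1) (x 3) (x 4) (x 5) : ℤ) * (E (x 1) (x 3) (x 4) (x 6) : ℤ) + (E (x 2) (x 3) (x 4) (x 5) : ℤ) * (E (x 2) (x 3) (x 4) (x 6) : ℤ))

theorem rA_ob (hw : Sy4w E) (x : Fin 7 → V) (hx : EvT E x) : (F1 E ob (x 0) (x 1) (x 2) (x 3) (x 4) (x 5) (x 6) : ℤ) = rA E x := by
  have h : F1 E ob (x 0) (x 1) (x 2) (x 3) (x 4) (x 5) (x 6) = 2097152 * (E (x 0) (x 1) (x 2) (x 5) * E (x 0) (x 1) (x 2) (x 6) + E (x 0) (x 1) (x 3) (x 5) * E (x 0) (x 1) (x 3) (x 6) + E (x 0) (x 2) (x 3) (x 5) * E (x 0) (x 2) (x 3) (x 6) + E (x 0) (x 1) (x 4) (x 5) * E (x 0) (x 1) (x 4) (x 6) + E (x 0) (x 2) (x 4) (x 5) * E (x 0) (x 2) (x 4) (x 6) + E (x 0) (x 3) (x 4) (x 5) * E (x 0) (x 3) (x 4) (x 6) + E (x 1) (x 2) (x 3) (x 5) * E (x 1) (x 2) (x 3) (x 6) + E (x 1) (x 2) (x 4) (x 5) * E (x 1) (x 2) (x 4) (x 6) + E (x 1) (x 3) (x 4) (x 5)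 * E (x 1) (x 3) (x 4) (x 6) + E (x 2) (x 3) (x 4) (x 5) * E (x 2) (x 3) (x 4) (x 6)) :=
    F1_ob (evT_sy hw hx) 0 1 2 3 4 5 6
  rw [h]
  unfold rA
  push_cast
  rfl

theorem mul_le1 {m n : ℕ} (hm : Bt m) (hn : Bt n) : (m : ℤ) * (n : ℤ) ≤ 1 := by
  rcases hm with rfl | rfl <;> rcases hn with rfl | rfl <;> norm_num

theorem rA_le (hw : Sy4w E) (x : Fin 7 → V) : rA E x ≤ 20971520 := by
  unfold rA
  have h0 := mul_le1 (hw.b (x 0) (x 1) (x 2) (x 5)) (hw.b (x 0) (x 1) (x 2) (x 6))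
  have h1 := mul_le1 (hw.b (x 0) (x 1) (x 3) (x 5)) (hw.b (x 0) (x 1) (x 3) (x 6))
  have h2 := mul_le1 (hw.b (x 0) (x 2) (x 3) (x 5)) (hw.b (x 0) (x 2) (x 3) (x 6))
  have h3 := mul_le1 (hw.b (x 0) (x 1) (x 4) (x 5)) (hw.b (x 0) (x 1) (x 4) (x 6))
  have h4 := mul_le1 (hw.b (x 0) (x 2) (x 4) (x 5)) (hw.b (x 0) (x 2) (x 4) (x 6))
  have h5 := mul_le1 (hw.b (x 0) (x 3) (x 4) (x 5)) (hw.b (x 0) (x 3) (x 4) (x 6))
  have h6 := mul_le1 (hw.b (x 1) (x 2) (x 3) (x 5)) (hw.b (x 1) (x 2) (x 3) (x 6))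
  have h7 := mul_le1 (hw.b (x 1) (x 2) (x 4) (x 5)) (hw.b (x 1) (x 2) (x 4) (x 6))
  have h8 := mul_le1 (hw.b (x 1) (x 3) (x 4) (x 5)) (hw.b (x 1) (x 3) (x 4) (x 6))
  have h9 := mul_le1 (hw.b (x 2) (x 3) (x 4) (x 5)) (hw.b (x 2) (x 3) (x 4) (x 6))
  linarith

variable [Fintype V]

theorem rA_sum : ∑ x : Fin 7 → V, rA E x
    = 20971520 * ((Fintype.card V : ℤ) ^ 2 * ∑ a, ∑ b, ∑ c, (∑ d, (E a b c d : ℤ)) ^ 2) := by
  set M := (Fintype.card V : ℤ) ^ 2 * ∑ a, ∑ b, ∑ c, (∑ d, (E a b c d : ℤ)) ^ 2 with hM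
  have h0 : ∑ x : Fin 7 → V, ((E (x 0) (x 1) (x 2) (x 5) : ℤ) * (E (x 0) (x 1) (x 2) (x 6) : ℤ)) = M :=
    trip2 E ![0, 1, 2, 3, 4, 5, 6] (by decide)
  have h1 : ∑ x : Fin 7 → V, ((E (x 0) (x 1) (x 3) (x 5) : ℤ) * (E (x 0) (x 1) (x 3) (x 6) : ℤ)) = M :=
    trip2 E ![0, 1, 3, 2, 4, 5, 6] (by decide)
  have h2 : ∑ x : Fin 7 → V, ((E (x 0) (x 2) (x 3) (x 5) : ℤ) * (E (x 0) (x 2) (x 3) (x 6) : ℤ)) = M :=
    trip2 E ![0, 2, 3, 1, 4, 5, 6] (by decide)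
  have h3 : ∑ x : Fin 7 → V, ((E (x 0) (x 1) (x 4) (x 5) : ℤ) * (E (x 0) (x 1) (x 4) (x 6) : ℤ)) = M :=
    trip2 E ![0, 1, 4, 2, 3, 5, 6] (by decide)
  have h4 : ∑ x : Fin 7 → V, ((E (x 0) (x 2) (x 4) (x 5) : ℤ) * (E (x 0) (x 2) (x 4) (x 6) : ℤ)) = M :=
    trip2 E ![0, 2, 4, 1, 3, 5, 6] (by decide)
  have h5 : ∑ x : Fin 7 → V, ((E (x 0) (x 3) (x 4) (x 5) : ℤ) * (E (x 0) (x 3) (x 4) (x 6) : ℤ)) = M :=
    trip2 E ![0, 3, 4, 1, 2, 5, 6] (by decide)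
  have h6 : ∑ x : Fin 7 → V, ((E (x 1) (x 2) (x 3) (x 5) : ℤ) * (E (x 1) (x 2) (x 3) (x 6) : ℤ)) = M :=
    trip2 E ![1, 2, 3, 0, 4, 5, 6] (by decide)
  have h7 : ∑ x : Fin 7 → V, ((E (x 1) (x 2) (x 4) (x 5) : ℤ) * (E (x 1) (x 2) (x 4) (x 6) : ℤ)) = M :=
    trip2 E ![1, 2, 4, 0, 3, 5, 6] (by decide)
  have h8 : ∑ x : Fin 7 → V, ((E (x 1) (x 3) (x 4) (x 5) : ℤ) * (E (x 1) (x 3) (x 4) (x 6) : ℤ)) = M :=
    trip2 E ![1, 3, 4, 0, 2, 5, 6] (by decide)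
  have h9 : ∑ x : Fin 7 → V, ((E (x 2) (x 3) (x 4) (x 5) : ℤ) * (E (x 2) (x 3) (x 4) (x 6) : ℤ)) = M :=
    trip2 E ![2, 3, 4, 0, 1, 5, 6] (by decide)
  unfold rA
  rw [← mul_sum]
  simp only [sum_add_distrib]
  rw [h0, h1, h2, h3, h4, h5, h6, h7, h8, h9]
  ring

theorem boundR (hw : Sy4w E) : 64 * ((Fintype.card V : ℤ) ^ 2 * ∑ a, ∑ b, ∑ c, (∑ d, (E a b c d : ℤ)) ^ 2)
    ≤ 31 * (Fintype.card V : ℤ) ^ 7 + 560 * ((badT E).card : ℤ) := by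
  have h := main7R hw q (tg tq) ob (OFF : ℤ) CST QM (fun c i j => rfl)
    (tg_psd (by decide) (by decide) aD aS aW) cs7 aP qM (by decide) (rA E) 20971520 (rA_ob hw)
    (rA_le hw) (by norm_num)
  rw [rA_sum] at h
  have hC : (CST : ℤ) = 21 * (OFF : ℤ) + 21 * 31 * 327680 := by
    unfold CST OFF; norm_num
  have hK : (21 * (QM : ℤ) - (CST : ℤ) + 21 * 20971520) = 3831162384 := by
    unfold QM CST; norm_num
  rw [hK, hC] at h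
  have hb : (0 : ℤ) ≤ ((badT E).card : ℤ) := by positivity
  nlinarith [h, hb]

end
end Pool.Agent.Helper27.E7.A
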