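import Pool.Agent.Helper27.E7.Inv
import Pool.Agent.Helper27.E7.Form

/-! The bound for the sum over all seven-tuples. -/

set_option autoImplicit false
set_option maxRecDepth 100000
set_option maxHeartbeats 4000000
open Finset

namespace Pool.Agent.Helper27.E7
open Pool.Agent.H122R2.N6 Pool.Agent.H37R3.K5

section
variable {V : Type}

def e7 (V : Type) : (Fin 7 → V) ≃ V × V × V × V × V × V × V where
  toFun x := (x 0, x 1, x 2, x 3, x 4, x 5, x 6)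
  invFun p := ![p.1, p.2.1, p.2.2.1, p.2.2.2.1, p.2.2.2.2.1, p.2.2.2.2.2.1, p.2.2.2.2.2.2]
  left_inv x := by funext i; fin_cases i <;> rfl
  right_inv p := rfl

variable [Fintype V]

theorem conv7 (F : V → V → V → V → V → V → V → ℤ) :
    ∑ x : Fin 7 → V, F (x 0) (x 1) (x 2) (x 3) (x 4) (x 5) (x 6)
      = ∑ a, ∑ b, ∑ c, ∑ d, ∑ e, ∑ f, ∑ g, F a b c d e f g := by
  rw [← Equiv.sum_comp (e7 V).symm]
  simp only [Fintype.sum_prod_type]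
  rfl

theorem reix (F : V → V → V → V → V → V → V → ℤ) (g : Fin 7 → Fin 7) (hg : Function.Bijective g) :
    ∑ x : Fin 7 → V, F (x (g 0)) (x (g 1)) (x (g 2)) (x (g 3)) (x (g 4)) (x (g 5)) (x (g 6))
      = ∑ x : Fin 7 → V, F (x 0) (x 1) (x 2) (x 3) (x 4) (x 5) (x 6) := by
  have h := Equiv.sum_comp (Equiv.arrowCongr (Equiv.ofBijective g hg).symm (Equiv.refl V))
    (fun x => F (x 0) (x 1) (x 2) (x 3) (x 4) (x 5) (x 6))
  rw [← h]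
  rfl

theorem sumL7 (E : V → V → V → V → ℕ) (q : ℕ → ℕ → ℕ → ℕ) :
    ∑ x : Fin 7 → V, (L7 E q (x 0) (x 1) (x 2) (x 3) (x 4) (x 5) (x 6) : ℤ)
      = 21 * ∑ x : Fin 7 → V, (F1 E q (x 0) (x 1) (x 2) (x 3) (x 4) (x 5) (x 6) : ℤ) := by
  set S := ∑ x : Fin 7 → V, (F1 E q (x 0) (x 1) (x 2) (x 3) (x 4) (x 5) (x 6) : ℤ) with hS
  have h0 : ∑ x : Fin 7 → V, (F1 E q (x 2) (x 3) (x 4) (x 5) (x 6) (x 0) (x 1) : ℤ) = S :=
    reix (fun a b c d e f g => (F1 E q a b c d e f g : ℤ)) ![2, 3, 4, 5, 6, 0, 1] (by decide)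
  have h1 : ∑ x : Fin 7 → V, (F1 E q (x 1) (x 3) (x 4) (x 5) (x 6) (x 0) (x 2) : ℤ) = S :=
    reix (fun a b c d e f g => (F1 E q a b c d e f g : ℤ)) ![1, 3, 4, 5, 6, 0, 2] (by decide)
  have h2 : ∑ x : Fin 7 → V, (F1 E q (x 1) (x 2) (x 4) (x 5) (x 6) (x 0) (x 3) : ℤ) = S :=
    reix (fun a b c d e f g => (F1 E q a b c d e f g : ℤ)) ![1, 2, 4, 5, 6, 0, 3] (by decide)
  have h3 : ∑ x : Fin 7 → V, (F1 E q (x 1) (x 2) (x 3) (x 5) (x 6) (x 0) (x 4) : ℤ) = S :=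
    reix (fun a b c d e f g => (F1 E q a b c d e f g : ℤ)) ![1, 2, 3, 5, 6, 0, 4] (by decide)
  have h4 : ∑ x : Fin 7 → V, (F1 E q (x 1) (x 2) (x 3) (x 4) (x 6) (x 0) (x 5) : ℤ) = S :=
    reix (fun a b c d e f g => (F1 E q a b c d e f g : ℤ)) ![1, 2, 3, 4, 6, 0, 5] (by decide)
  have h5 : ∑ x : Fin 7 → V, (F1 E q (x 1) (x 2) (x 3) (x 4) (x 5) (x 0) (x 6) : ℤ) = S :=
    reix (fun a b c d e f g => (F1 E q a b c d e f g : ℤ)) ![1, 2, 3, 4, 5, 0, 6] (by decide)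
  have h6 : ∑ x : Fin 7 → V, (F1 E q (x 0) (x 3) (x 4) (x 5) (x 6) (x 1) (x 2) : ℤ) = S :=
    reix (fun a b c d e f g => (F1 E q a b c d e f g : ℤ)) ![0, 3, 4, 5, 6, 1, 2] (by decide)
  have h7 : ∑ x : Fin 7 → V, (F1 E q (x 0) (x 2) (x 4) (x 5) (x 6) (x 1) (x 3) : ℤ) = S :=
    reix (fun a b c d e f g => (F1 E q a b c d e f g : ℤ)) ![0, 2, 4, 5, 6, 1, 3] (by decide)
  have h8 : ∑ x : Fin 7 → V, (F1 E q (x 0) (x 2) (x 3) (x 5) (x 6) (x 1) (x 4) : ℤ) = S :=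
    reix (fun a b c d e f g => (F1 E q a b c d e f g : ℤ)) ![0, 2, 3, 5, 6, 1, 4] (by decide)
  have h9 : ∑ x : Fin 7 → V, (F1 E q (x 0) (x 2) (x 3) (x 4) (x 6) (x 1) (x 5) : ℤ) = S :=
    reix (fun a b c d e f g => (F1 E q a b c d e f g : ℤ)) ![0, 2, 3, 4, 6, 1, 5] (by decide)
  have h10 : ∑ x : Fin 7 → V, (F1 E q (x 0) (x 2) (x 3) (x 4) (x 5) (x 1) (x 6) : ℤ) = S :=
    reix (fun a b c d e f g => (F1 E q a b c d e f g : ℤ)) ![0, 2, 3, 4, 5, 1, 6] (by decide)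
  have h11 : ∑ x : Fin 7 → V, (F1 E q (x 0) (x 1) (x 4) (x 5) (x 6) (x 2) (x 3) : ℤ) = S :=
    reix (fun a b c d e f g => (F1 E q a b c d e f g : ℤ)) ![0, 1, 4, 5, 6, 2, 3] (by decide)
  have h12 : ∑ x : Fin 7 → V, (F1 E q (x 0) (x 1) (x 3) (x 5) (x 6) (x 2) (x 4) : ℤ) = S :=
    reix (fun a b c d e f g => (F1 E q a b c d e f g : ℤ)) ![0, 1, 3, 5, 6, 2, 4] (by decide)
  have h13 : ∑ x : Fin 7 → V, (F1 E q (x 0) (x 1) (x 3) (x 4) (x 6) (x 2) (x 5) : ℤ) = S :=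
    reix (fun a b c d e f g => (F1 E q a b c d e f g : ℤ)) ![0, 1, 3, 4, 6, 2, 5] (by decide)
  have h14 : ∑ x : Fin 7 → V, (F1 E q (x 0) (x 1) (x 3) (x 4) (x 5) (x 2) (x 6) : ℤ) = S :=
    reix (fun a b c d e f g => (F1 E q a b c d e f g : ℤ)) ![0, 1, 3, 4, 5, 2, 6] (by decide)
  have h15 : ∑ x : Fin 7 → V, (F1 E q (x 0) (x 1) (x 2) (x 5) (x 6) (x 3) (x 4) : ℤ) = S :=
    reix (fun a b c d e f g => (F1 E q a b c d e f g : ℤ)) ![0, 1, 2, 5, 6, 3, 4] (by decide)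
  have h16 : ∑ x : Fin 7 → V, (F1 E q (x 0) (x 1) (x 2) (x 4) (x 6) (x 3) (x 5) : ℤ) = S :=
    reix (fun a b c d e f g => (F1 E q a b c d e f g : ℤ)) ![0, 1, 2, 4, 6, 3, 5] (by decide)
  have h17 : ∑ x : Fin 7 → V, (F1 E q (x 0) (x 1) (x 2) (x 4) (x 5) (x 3) (x 6) : ℤ) = S :=
    reix (fun a b c d e f g => (F1 E q a b c d e f g : ℤ)) ![0, 1, 2, 4, 5, 3, 6] (by decide)
  have h18 : ∑ x : Fin 7 → V, (F1 E q (x 0) (x 1) (x 2) (x 3) (x 6) (x 4) (x 5) : ℤ) = S :=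
    reix (fun a b c d e f g => (F1 E q a b c d e f g : ℤ)) ![0, 1, 2, 3, 6, 4, 5] (by decide)
  have h19 : ∑ x : Fin 7 → V, (F1 E q (x 0) (x 1) (x 2) (x 3) (x 5) (x 4) (x 6) : ℤ) = S :=
    reix (fun a b c d e f g => (F1 E q a b c d e f g : ℤ)) ![0, 1, 2, 3, 5, 4, 6] (by decide)
  have h20 : ∑ x : Fin 7 → V, (F1 E q (x 0) (x 1) (x 2) (x 3) (x 4) (x 5) (x 6) : ℤ) = S :=
    reix (fun a b c d e f g => (F1 E q a b c d e f g : ℤ)) ![0, 1, 2, 3, 4, 5, 6] (by decide)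
  unfold L7
  push_cast
  simp only [sum_add_distrib]
  rw [h0, h1, h2, h3, h4, h5, h6, h7, h8, h9, h10, h11, h12, h13, h14, h15, h16, h17, h18, h19, h20]
  ring

theorem cd4_lt {p0 p1 p2 p3 : ℕ} (h0 : Bt p0) (h1 : Bt p1) (h2 : Bt p2) (h3 : Bt p3) :
    cd4 p0 p1 p2 p3 < 16 := by
  unfold Bt at *
  simp only [cd4, Nat.add_eq, Nat.mul_eq]
  omega

theorem cd6_lt {p0 p1 p2 p3 p4 p5 : ℕ} (h0 : Bt p0) (h1 : Bt p1) (h2 : Bt p2) (h3 : Bt p3)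
    (h4 : Bt p4) (h5 : Bt p5) : cd6 p0 p1 p2 p3 p4 p5 < 64 := by
  unfold Bt at *
  simp only [cd6, Nat.add_eq, Nat.mul_eq]
  omega

theorem lower7 {E : V → V → V → V → ℕ} (hE : Sy4 E) (q : ℕ → ℕ → ℕ → ℕ) (O : ℤ)
    (hp : ∀ c < 16, ∀ x : V → ℕ, (∀ d, x d < 64) → 0 ≤ ∑ d, ∑ e, ((q c (x d) (x e) : ℤ) - O)) :
    O * (Fintype.card V : ℤ) ^ 7 ≤ ∑ x : Fin 7 → V, (F1 E q (x 0) (x 1) (x 2) (x 3) (x 4) (x 5) (x 6) : ℤ) := by
  rw [conv7 (fun a b c d e f g => (F1 E q a b c d e f g : ℤ))]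
  have e1 : O * (Fintype.card V : ℤ) ^ 7
      = ∑ a : V, ∑ b : V, ∑ c : V, ∑ d : V, ∑ e : V, ∑ f : V, ∑ g : V, O := by
    simp only [sum_const, card_univ, nsmul_eq_mul]
    ring
  rw [e1]
  refine sum_le_sum fun a _ => sum_le_sum fun b _ => sum_le_sum fun c _ => sum_le_sum fun d _ =>
    sum_le_sum fun e _ => ?_
  have h := hp (cd4 (E a b c d) (E a b c e) (E a b d e) (E a c d e))
    (cd4_lt (hE.b _ _ _ _) (hE.b _ _ _ _) (hE.b _ _ _ _) (hE.b _ _ _ _))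
    (fun f => cd6 (E a b c f) (E a b d f) (E a c d f) (E a b e f) (E a c e f) (E a d e f))
    (fun f => cd6_lt (hE.b _ _ _ _) (hE.b _ _ _ _) (hE.b _ _ _ _) (hE.b _ _ _ _) (hE.b _ _ _ _)
      (hE.b _ _ _ _))
  simp only [sum_sub_distrib] at h
  show ∑ f : V, ∑ g : V, O ≤ ∑ f : V, ∑ g : V,
    ((q (cd4 (E a b c d) (E a b c e) (E a b d e) (E a c d e))
    (cd6 (E a b c f) (E a b d f) (E a c d f) (E a b e f) (E a c e f) (E a d e f))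
    (cd6 (E a b c g) (E a b d g) (E a c d g) (E a b e g) (E a c e g) (E a d e g)) : ℕ) : ℤ)
  linarith

/-- the bound -/
theorem main7 {E : V → V → V → V → ℕ} (hE : Sy4 E) (q t ob : ℕ → ℕ → ℕ → ℕ) (O : ℤ) (C : ℕ)
    (hq : ∀ c i j, q c i j = t c i j + ob c i j)
    (hp : ∀ c < 16, ∀ x : V → ℕ, (∀ d, x d < 64) → 0 ≤ ∑ d, ∑ e, ((t c (x d) (x e) : ℤ) - O))
    (hs : sym7 q = true)
    (hc : ∀ x y z w u v, Bt x → Bt y → Bt z → Bt w → Bt u → Bt v → part7 q C x y z w u v = true) :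
    21 * ∑ x : Fin 7 → V, (F1 E ob (x 0) (x 1) (x 2) (x 3) (x 4) (x 5) (x 6) : ℤ) + 21 * O * (Fintype.card V : ℤ) ^ 7
      ≤ C * (Fintype.card V : ℤ) ^ 7 := by
  have A := lower7 hE t O hp
  have key : ∑ x : Fin 7 → V, (L7 E q (x 0) (x 1) (x 2) (x 3) (x 4) (x 5) (x 6) : ℤ) ≤ C * (Fintype.card V : ℤ) ^ 7 := by
    calc _ ≤ ∑ x : Fin 7 → V, (C : ℤ) :=
          sum_le_sum fun x _ => by exact_mod_cast leaf_all hE hs hc (x 0) (x 1) (x 2) (x 3) (x 4) (x 5) (x 6)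
      _ = C * (Fintype.card V : ℤ) ^ 7 := by
          rw [sum_const, card_univ, Fintype.card_fun, Fintype.card_fin, nsmul_eq_mul]
          push_cast
          ring
  rw [sumL7 E q] at key
  have e : ∑ x : Fin 7 → V, (F1 E q (x 0) (x 1) (x 2) (x 3) (x 4) (x 5) (x 6) : ℤ)
      = ∑ x : Fin 7 → V, (F1 E t (x 0) (x 1) (x 2) (x 3) (x 4) (x 5) (x 6) : ℤ)
        + ∑ x : Fin 7 → V, (F1 E ob (x 0) (x 1) (x 2) (x 3) (x 4) (x 5) (x 6) : ℤ) := by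
    rw [← sum_add_distrib]
    refine sum_congr rfl fun x _ => ?_
    unfold F1
    rw [hq]
    push_cast
    rfl
  rw [e] at key
  linarith

end
end Pool.Agent.Helper27.E7
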