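import Pool.Agent.Helper27.E7.Com
import Pool.Agent.Helper27.E7.Count

/-! Soundness of the checks. -/

set_option autoImplicit false
set_option maxRecDepth 100000
set_option maxHeartbeats 400000
open Finset

namespace Pool.Agent.Helper27.E7
open Pool.Agent.H122R2.N6 Pool.Agent.H37R3.K5

theorem rng : (nall 16 fun c => and (Nat.blt (rho c) 3) (nall 64 fun i => Nat.blt (pc c i) 64)) = true := by
  decide +kernel

theorem rngW : (nall 3 fun r => nall 64 fun i => or (np r i)
    (nall 64 fun k => or (np r k) (Nat.beq (cw r i k) 32))) = true := by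
  decide +kernel

theorem rngw0 : (nall 3 fun r => Nat.blt 0 (w0 r)) = true := by decide +kernel

theorem rho_lt {c : ℕ} (h : c < 16) : rho c < 3 := by
  have := nall_true rng c h
  rw [Bool.and_eq_true] at this
  exact Nat.le_of_ble_eq_true this.1

theorem pc_lt {c i : ℕ} (h : c < 16) (hi : i < 64) : pc c i < 64 := by
  have := nall_true rng c h
  rw [Bool.and_eq_true] at this
  exact Nat.le_of_ble_eq_true (nall_true this.2 i hi)

theorem beq_false_of {x y : ℕ} (h : x ≠ y) : Nat.beq x y = false :=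
  Bool.eq_false_iff.mpr fun h' => h (Nat.eq_of_beq_eq_true h')

theorem cnd1 (b : Bool) (X : ℕ) : cond (or true b) 0 X = 0 := rfl
theorem cnd2 (X : ℕ) : cond (or false (not false)) 0 X = 0 := rfl
theorem cnd3 (X : ℕ) : cond (or false (not true)) 0 X = X := rfl

theorem adg_cast (x y : ℕ) : ((adg x y : ℕ) : ℤ) = |(x : ℤ) - (y : ℤ)| := by
  unfold adg
  rcases le_total x y with h | h
  · have e1 : Nat.sub x y = 0 := Nat.sub_eq_zero_of_le h
    rw [e1, Nat.add_eq, Nat.zero_add, Nat.sub_eq, Nat.cast_sub h, abs_sub_comm,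
      abs_of_nonneg (by have : (x : ℤ) ≤ y := by exact_mod_cast h
                        linarith)]
  · have e1 : Nat.sub y x = 0 := Nat.sub_eq_zero_of_le h
    rw [e1, Nat.add_eq, Nat.add_zero, Nat.sub_eq, Nat.cast_sub h,
      abs_of_nonneg (by have : (y : ℤ) ≤ x := by exact_mod_cast h
                        linarith)]

theorem rest_eq (tq l : ℕ → ℕ → ℕ → ℕ) (D2 OL CN O r i j : ℕ)
    (hCN : CN = D2 * O + 64 * OL * OL) :
    ((Pg tq l D2 OL r i j : ℕ) : ℤ) - ((Ng l CN r i j : ℕ) : ℤ) = (D2 : ℤ) * ((tq r i j : ℤ) - O)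
      - ∑ k ∈ range 64, ((l r i k : ℤ) - OL) * ((l r j k : ℤ) - OL) := by
  have e : ∑ k ∈ range 64, ((l r i k : ℤ) - OL) * ((l r j k : ℤ) - OL)
      = ∑ k ∈ range 64, (l r i k : ℤ) * (l r j k : ℤ) + 64 * OL * OL
        - OL * (∑ k ∈ range 64, (l r i k : ℤ) + ∑ k ∈ range 64, (l r j k : ℤ)) := by
    have e1 : (64 * OL * OL : ℤ) = ∑ k ∈ range 64, ((OL : ℤ) * OL) := by
      rw [sum_const, card_range, nsmul_eq_mul]; push_cast; ring
    rw [e1, mul_add, mul_sum, mul_sum, ← sum_add_distrib, ← sum_add_distrib, ← sum_sub_distrib]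
    exact sum_congr rfl fun k _ => by ring
  unfold Pg Ng sl ll
  rw [nsum_eq, nsum_eq, nsum_eq, e, hCN]
  simp only [Nat.add_eq, Nat.mul_eq]
  push_cast
  ring

theorem condsum (r i : ℕ) (P N : ℕ → ℕ) :
    ((∑ j ∈ range 64, cond (or (Nat.beq i j) (not (np r j))) 0 (adg (P j) (N j)) : ℕ) : ℤ)
      = ∑ j ∈ range 64, (if i = j ∨ np r j = false then 0 else |(P j : ℤ) - (N j : ℤ)|) := by
  rw [Nat.cast_sum]
  refine sum_congr rfl fun j _ => ?_
  by_cases h6 : i = j
  · rw [if_pos (Or.inl h6)]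
    have : Nat.beq i j = true := by rw [h6]; exact Nat.beq_refl j
    rw [this, cnd1, Nat.cast_zero]
  · have h7 : Nat.beq i j = false := beq_false_of h6
    rw [h7]
    cases h8 : np r j with
    | true => rw [if_neg (not_or.mpr ⟨h6, by simp⟩), cnd3, adg_cast]
    | false => rw [if_pos (Or.inr rfl), cnd2, Nat.cast_zero]

/-- the row check, in integers -/
theorem row_of {tq l : ℕ → ℕ → ℕ → ℕ} {D2 OL CN O r i : ℕ} (hCN : CN = D2 * O + 64 * OL * OL)
    (h : ddg tq l D2 OL CN r i = true) (he : np r i = true) :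
    ∑ j ∈ range 64, (if i = j ∨ np r j = false then 0 else |(D2 : ℤ) * ((tq r i j : ℤ) - O)
      - ∑ k ∈ range 64, ((l r i k : ℤ) - OL) * ((l r j k : ℤ) - OL)|)
    ≤ (D2 : ℤ) * ((tq r i i : ℤ) - O)
        - ∑ k ∈ range 64, ((l r i k : ℤ) - OL) * ((l r i k : ℤ) - OL) := by
  have e : not (np r i) = false := by rw [he]; rfl
  unfold ddg at h
  rw [e, Bool.false_or] at h
  have h3 := Nat.le_of_ble_eq_true h
  rw [nsum_eq, Nat.add_eq] at h3
  have h4 := (Nat.cast_le (α := ℤ)).mpr h3
  rw [Nat.cast_add, condsum r i (fun j => Pg tq l D2 OL r i j) (fun j => Ng l CN r i j)] at h4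
  have h5 : ∑ j ∈ range 64, (if i = j ∨ np r j = false then 0 else |(D2 : ℤ) * ((tq r i j : ℤ) - O)
      - ∑ k ∈ range 64, ((l r i k : ℤ) - OL) * ((l r j k : ℤ) - OL)|)
      = ∑ j ∈ range 64, (if i = j ∨ np r j = false then 0
        else |((Pg tq l D2 OL r i j : ℕ) : ℤ) - ((Ng l CN r i j : ℕ) : ℤ)|) := by
    refine sum_congr rfl fun j _ => ?_
    rw [rest_eq tq l D2 OL CN O r i j hCN]
  rw [h5, ← rest_eq tq l D2 OL CN O r i i hCN]
  exact le_sub_iff_add_le.mpr h4

theorem psd_of {tq l : ℕ → ℕ → ℕ → ℕ} {D2 OL CN O r : ℕ} (hr : r < 3) (hD2 : 0 < D2)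
    (hCN : CN = D2 * O + 64 * OL * OL) (hD : chkD tq l D2 OL CN r = true)
    (hS : chkS tq r = true) (hC : chkW tq O r = true) {V : Type} [Fintype V] (x : V → ℕ)
    (hx : ∀ d, x d < 64) : 0 ≤ ∑ d, ∑ e, ((tq r (x d) (x e) : ℤ) - O) := by
  have hw0 : 0 < w0 r := by
    have := nall_true rngw0 r hr
    exact Nat.le_of_ble_eq_true this
  refine formW (fun i j => (tq r i j : ℤ) - O) (fun i k => (l r i k : ℤ) - OL)
    (fun i k => if np r i = true then (if i = k then (w0 r : ℤ) else 0) else ((cw r i k : ℤ) - 32))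
    (np r) D2 (w0 r) 64 (by exact_mod_cast hD2) (by exact_mod_cast hw0) ?_ ?_ ?_
    (fun i hi he => row_of hCN (nall_true hD i hi) he) x hx
  · intro i hi j hj
    have h := Nat.eq_of_beq_eq_true (nall_true (nall_true hS i hi) j hj)
    show (tq r i j : ℤ) - _ = (tq r j i : ℤ) - _
    rw [h]
  · intro i hi k hk hnk
    show (if np r i = true then (if i = k then (w0 r : ℤ) else 0) else ((cw r i k : ℤ) - 32)) = 0
    cases h1 : np r i with
    | true =>
      rw [if_pos rfl, if_neg]
      rintro rfl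
      rw [h1] at hnk
      exact absurd hnk (by decide)
    | false =>
      rw [if_neg (by decide)]
      have h2 := nall_true (nall_true rngW r hr) i hi
      have h3 := nall_true (or_false_left h2 h1) k hk
      have h4 := Nat.eq_of_beq_eq_true (or_false_left h3 hnk)
      rw [h4]; norm_num
  · intro i hi j hj
    show (w0 r : ℤ) * ((tq r i j : ℤ) - O) = ∑ k ∈ range 64,
      (if np r i = true then (if i = k then (w0 r : ℤ) else 0) else ((cw r i k : ℤ) - 32))
        * ((tq r k j : ℤ) - O)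
    cases h1 : np r i with
    | true =>
      rw [sum_eq_single_of_mem i (mem_range.mpr hi)]
      · rw [if_pos rfl, if_pos rfl]
      · intro k _ hk
        rw [if_pos rfl, if_neg (Ne.symm hk), zero_mul]
    | false =>
      have h2 := or_false_left (nall_true hC i hi) h1
      have h3 := Nat.eq_of_beq_eq_true (nall_true h2 j hj)
      rw [nsum_eq, nsum_eq, nsum_eq] at h3
      have h4 := congrArg (fun n : ℕ => (n : ℤ)) h3
      simp only [Nat.add_eq, Nat.mul_eq] at h4
      push_cast at h4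
      have e : ∑ k ∈ range 64, (if false = true then (if i = k then (w0 r : ℤ) else 0)
          else ((cw r i k : ℤ) - 32)) * ((tq r k j : ℤ) - O)
          = ∑ k ∈ range 64, (cw r i k : ℤ) * (tq r k j : ℤ) + 2048 * O
            - 32 * ∑ k ∈ range 64, (tq r k j : ℤ) - O * ∑ k ∈ range 64, (cw r i k : ℤ) := by
        have e1 : (2048 * O : ℤ) = ∑ k ∈ range 64, (32 * (O : ℤ)) := by
          rw [sum_const, card_range, nsmul_eq_mul]; push_cast; ring
        rw [e1, mul_sum, mul_sum, ← sum_add_distrib, ← sum_sub_distrib, ← sum_sub_distrib]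
        refine sum_congr rfl fun k _ => ?_
        rw [if_neg (by decide)]
        ring
      rw [e]
      linarith

theorem nall_intro {n : ℕ} {f : ℕ → Bool} (h : ∀ k < n, f k = true) : nall n f = true := by
  induction n with
  | zero => rfl
  | succ n ih =>
    show (nall n f && f n) = true
    rw [ih fun k hk => h k (Nat.lt_succ_of_lt hk), h n (Nat.lt_succ_self n)]
    rfl

theorem chkD_of {tq l : ℕ → ℕ → ℕ → ℕ} {D2 OL CN r : ℕ}
    (h : ∀ a < 8, chkD8 tq l D2 OL CN r a = true) : chkD tq l D2 OL CN r = true := by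
  refine nall_intro fun k hk => ?_
  have h1 := nall_true (h (k / 8) (by omega)) (k % 8) (by omega)
  have e : Nat.add (Nat.mul 8 (k / 8)) (k % 8) = k := Nat.div_add_mod k 8
  rw [e] at h1
  exact h1

/-- the forms of all types are nonnegative -/
theorem tg_psd {tq l : ℕ → ℕ → ℕ → ℕ} {D2 OL CN O : ℕ} (hD2 : 0 < D2)
    (hCN : CN = D2 * O + 64 * OL * OL) (hD : ∀ r < 3, chkD tq l D2 OL CN r = true)
    (hS : ∀ r < 3, chkS tq r = true) (hC : ∀ r < 3, chkW tq O r = true) {V : Type} [Fintype V] :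
    ∀ c < 16, ∀ x : V → ℕ, (∀ d, x d < 64) →
      0 ≤ ∑ d, ∑ e, ((tg tq c (x d) (x e) : ℤ) - (O : ℤ)) := by
  intro c hc x hx
  have hr := rho_lt hc
  exact psd_of hr hD2 hCN (hD _ hr) (hS _ hr) (hC _ hr) (fun d => pc c (x d))
    (fun d => pc_lt hc (hx d))

end Pool.Agent.Helper27.E7
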