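import Pool.Agent.H37R3.K5.Walk
import Pool.Agent.H122R2.N6.Util

/-! Seven-vertex flags for 4-graphs in which every five vertices span an even number of edges:
codes and the leaf functional. The structure on seven vertices is determined by the twenty edges at
the first vertex. -/

set_option autoImplicit false
set_option maxRecDepth 100000

namespace Pool.Agent.Helper27.E7
open Pool.Agent.H122R2.N6 Pool.Agent.H37R3.K5

/-- the parity of four bits -/
def x4 (a b c d : ℕ) : ℕ := Nat.mod (Nat.add a (Nat.add b (Nat.add c d))) 2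

/-- the sum over the 21 placements of a labelled five-set, in terms of the 35 quadruples -/
def leafD (q : ℕ → ℕ → ℕ → ℕ) (b012 b013 b023 b123 b014 b024 b124 b034 b134 b234 b015 b025 b125 b035 b135 b235 b045 b145 b245 b345 : ℕ) (d0123 d0124 d0125 d0134 d0135 d0145 d0234 d0235 d0245 d0345 d1234 d1235 d1245 d1345 d2345 : ℕ) : ℕ :=
  Nat.add (q (cd4 d1234 d1235 d1245 d1345) (cd6 b123 b124 b134 b125 b135 b145) (cd6 d0123 d0124 d0134 d0125 d0135 d0145))
    (Nat.add (q (cd4 d0234 d0235 d0245 d0345) (cd6 b023 b024 b034 b025 b035 b045) (cd6 d0123 d0124 d0134 d0125 d0135 d0145))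
    (Nat.add (q (cd4 d0134 d0135 d0145 d0345) (cd6 b013 b014 b034 b015 b035 b045) (cd6 d0123 d0124 d0234 d0125 d0235 d0245))
    (Nat.add (q (cd4 d0124 d0125 d0145 d0245) (cd6 b012 b014 b024 b015 b025 b045) (cd6 d0123 d0134 d0234 d0135 d0235 d0345))
    (Nat.add (q (cd4 d0123 d0125 d0135 d0235) (cd6 b012 b013 b023 b015 b025 b035) (cd6 d0124 d0134 d0234 d0145 d0245 d0345))
    (Nat.add (q (cd4 d0123 d0124 d0134 d0234) (cd6 b012 b013 b023 b014 b024 b034) (cd6 d0125 d0135 d0235 d0145 d0245 d0345))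
    (Nat.add (q (cd4 b234 b235 b245 b345) (cd6 b023 b024 b034 b025 b035 b045) (cd6 b123 b124 b134 b125 b135 b145))
    (Nat.add (q (cd4 b134 b135 b145 b345) (cd6 b013 b014 b034 b015 b035 b045) (cd6 b123 b124 b234 b125 b235 b245))
    (Nat.add (q (cd4 b124 b125 b145 b245) (cd6 b012 b014 b024 b015 b025 b045) (cd6 b123 b134 b234 b135 b235 b345))
    (Nat.add (q (cd4 b123 b125 b135 b235) (cd6 b012 b013 b023 b015 b025 b035) (cd6 b124 b134 b234 b145 b245 b345))
    (Nat.add (q (cd4 b123 b124 b134 b234) (cd6 b012 b013 b023 b014 b024 b034) (cd6 b125 b135 b235 b145 b245 b345))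
    (Nat.add (q (cd4 b034 b035 b045 b345) (cd6 b013 b014 b134 b015 b135 b145) (cd6 b023 b024 b234 b025 b235 b245))
    (Nat.add (q (cd4 b024 b025 b045 b245) (cd6 b012 b014 b124 b015 b125 b145) (cd6 b023 b034 b234 b035 b235 b345))
    (Nat.add (q (cd4 b023 b025 b035 b235) (cd6 b012 b013 b123 b015 b125 b135) (cd6 b024 b034 b234 b045 b245 b345))
    (Nat.add (q (cd4 b023 b024 b034 b234) (cd6 b012 b013 b123 b014 b124 b134) (cd6 b025 b035 b235 b045 b245 b345))
    (Nat.add (q (cd4 b014 b015 b045 b145) (cd6 b012 b024 b124 b025 b125 b245) (cd6 b013 b034 b134 b035 b135 b345))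
    (Nat.add (q (cd4 b013 b015 b035 b135) (cd6 b012 b023 b123 b025 b125 b235) (cd6 b014 b034 b134 b045 b145 b345))
    (Nat.add (q (cd4 b013 b014 b034 b134) (cd6 b012 b023 b123 b024 b124 b234) (cd6 b015 b035 b135 b045 b145 b345))
    (Nat.add (q (cd4 b012 b015 b025 b125) (cd6 b013 b023 b123 b035 b135 b235) (cd6 b014 b024 b124 b045 b145 b245))
    (Nat.add (q (cd4 b012 b014 b024 b124) (cd6 b013 b023 b123 b034 b134 b234) (cd6 b015 b025 b125 b045 b145 b245))
    (q (cd4 b012 b013 b023 b123) (cd6 b014 b024 b124 b034 b134 b234) (cd6 b015 b025 b125 b035 b135 b235)))))))))))))))))))))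

/-- the same in terms of the twenty quadruples containing the first vertex -/
def leaf7 (q : ℕ → ℕ → ℕ → ℕ) (b012 b013 b023 b123 b014 b024 b124 b034 b134 b234 b015 b025 b125 b035 b135 b235 b045 b145 b245 b345 : ℕ) : ℕ :=
  leafD q b012 b013 b023 b123 b014 b024 b124 b034 b134 b234 b015 b025 b125 b035 b135 b235 b045 b145 b245 b345
    (x4 b012 b013 b023 b123) (x4 b012 b014 b024 b124) (x4 b012 b015 b025 b125) (x4 b013 b014 b034 b134) (x4 b013 b015 b035 b135) (x4 b014 b015 b045 b145) (x4 b023 b024 b034 b234) (x4 b023 b025 b035 b235) (x4 b024 b025 b045 b245) (x4 b034 b035 b045 b345) (x4 b123 b124 b134 b234) (x4 b123 b125 b135 b235) (x4 b124 b125 b145 b245) (x4 b134 b135 b145 b345) (x4 b234 b235 b245 b345)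

section
variable {V : Type} (E : V → V → V → V → ℕ)

/-- the value at a labelled five-set and two further vertices -/
def F1 (q : ℕ → ℕ → ℕ → ℕ) (a b c d e f g : V) : ℕ :=
  q (cd4 (E a b c d) (E a b c e) (E a b d e) (E a c d e))
    (cd6 (E a b c f) (E a b d f) (E a c d f) (E a b e f) (E a c e f) (E a d e f))
    (cd6 (E a b c g) (E a b d g) (E a c d g) (E a b e g) (E a c e g) (E a d e g))

def L7 (q : ℕ → ℕ → ℕ → ℕ) (o a b c d e f : V) : ℕ :=
  (F1 E q b c d e f o a) + (F1 E q a c d e f o b) + (F1 E q a b d e f o c) + (F1 E q a b c e f o d) + (F1 E q a b c d f o e) + (F1 E q a b c d e o f) + (F1 E q o c d e f a b) + (F1 E q o b d e f a c) + (F1 E q o b c e f a d) + (F1 E q o b c d f a e) + (F1 E q o b c d e a f) + (F1 E q o a d e f b c) + (F1 E q o a c e f b d) + (F1 E q o a c d f b e) + (F1 E q o a c d e b f) + (F1 E q o a b e f c d) + (F1 E q o a b d f c e) + (F1 E q o a b d e c f) + (F1 E q o a b c f d e) + (F1 E q o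 a b c e d f) + (F1 E q o a b c d e f)

end

/-- the inequality for all structures extending the given one on the first six vertices -/
def chk7 (q : ℕ → ℕ → ℕ → ℕ) (C : ℕ) (b012 b013 b023 b123 b014 b024 b124 b034 b134 b234 : ℕ) : Bool :=
  B2 fun b015 => B2 fun b025 => B2 fun b125 => B2 fun b035 => B2 fun b135 => B2 fun b235 => B2 fun b045 => B2 fun b145 => B2 fun b245 => B2 fun b345 => Nat.ble (leaf7 q b012 b013 b023 b123 b014 b024 b124 b034 b134 b234 b015 b025 b125 b035 b135 b235 b045 b145 b245 b345) C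

/-- the inequality for all structures in which the first six bits are given and the structure on the
first five vertices of the link is a representative or complete -/
def part7 (q : ℕ → ℕ → ℕ → ℕ) (C : ℕ) (b012 b013 b023 b123 b014 b024 : ℕ) : Bool :=
  B2 fun b124 => B2 fun b034 => B2 fun b134 => B2 fun b234 =>
    or (not (or (k5b b012 b013 b023 b123 b014 b024 b124 b034 b134 b234) (Nat.beq (tg5 b012 b013 b023 b123 b014 b024 b124 b034 b134 b234) 4)))
      (chk7 q C b012 b013 b023 b123 b014 b024 b124 b034 b134 b234)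

/-- the table is invariant under relabelling of the five vertices and exchange of the flags -/
def sym7p (q : ℕ → ℕ → ℕ → ℕ) (p0 p1 p2 p3 i0 i1 : ℕ) : Bool := B2 fun i2 => B2 fun i3 => B2 fun i4 => B2 fun i5 => B2 fun j0 => B2 fun j1 => B2 fun j2 => B2 fun j3 => B2 fun j4 => B2 fun j5 =>
  and (Nat.beq (q (cd4 p0 p1 p2 (x4 p0 p1 p2 p3)) (cd6 i0 i1 (x4 p0 i0 i1 i2) i3 (x4 p1 i0 i3 i4) (x4 p2 i1 i3 i5)) (cd6 j0 j1 (x4 p0 j0 j1 j2) j3 (x4 p1 j0 j3 j4) (x4 p2 j1 j3 j5))) (q (cd4 p0 p1 p2 p3) (cd6 i0 i1 i2 i3 i4 i5) (cd6 j0 j1 j2 j3 j4 j5)))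
  (and (Nat.beq (q (cd4 p0 p1 p3 p2) (cd6 i0 i2 i1 i4 i3 i5) (cd6 j0 j2 j1 j4 j3 j5)) (q (cd4 p0 p1 p2 p3) (cd6 i0 i1 i2 i3 i4 i5) (cd6 j0 j1 j2 j3 j4 j5)))
  (and (Nat.beq (q (cd4 p0 p2 p1 p3) (cd6 i1 i0 i2 i3 i5 i4) (cd6 j1 j0 j2 j3 j5 j4)) (q (cd4 p0 p1 p2 p3) (cd6 i0 i1 i2 i3 i4 i5) (cd6 j0 j1 j2 j3 j4 j5)))
  (and (Nat.beq (q (cd4 p1 p0 p2 p3) (cd6 i0 i3 i4 i1 i2 i5) (cd6 j0 j3 j4 j1 j2 j5)) (q (cd4 p0 p1 p2 p3) (cd6 i0 i1 i2 i3 i4 i5) (cd6 j0 j1 j2 j3 j4 j5)))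
    (Nat.beq (q (cd4 p0 p1 p2 p3) (cd6 j0 j1 j2 j3 j4 j5) (cd6 i0 i1 i2 i3 i4 i5)) (q (cd4 p0 p1 p2 p3) (cd6 i0 i1 i2 i3 i4 i5) (cd6 j0 j1 j2 j3 j4 j5))))))

/-- the table is invariant under relabelling of the five vertices and exchange of the flags -/
def sym7 (q : ℕ → ℕ → ℕ → ℕ) : Bool := B2 fun p0 => B2 fun p1 => B2 fun p2 => B2 fun p3 => B2 fun i0 => B2 fun i1 => sym7p q p0 p1 p2 p3 i0 i1

theorem B2_intro {f : ℕ → Bool} (h0 : f 0 = true) (h1 : f 1 = true) : B2 f = true := by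
  unfold B2
  rw [h0, h1]
  rfl

end Pool.Agent.Helper27.E7
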