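import Pool.Agent.Helper27.E7.Defs

set_option autoImplicit false
set_option maxRecDepth 100000
set_option maxHeartbeats 4000000
open Finset

namespace Pool.Agent.Helper27.E7
open Pool.Agent.H122R2.N6 Pool.Agent.H37R3.K5

/-- symmetric 0/1-valued functions of four vertices, with even sum over the quadruples of any five -/
structure Sy4 {V : Type} (E : V → V → V → V → ℕ) : Prop where
  b : ∀ w x y z, Bt (E w x y z)
  h2134 : ∀ w x y z, E x w y z = E w x y z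
  h1324 : ∀ w x y z, E w y x z = E w x y z
  e2 : ∀ w x y z, E w x z y = E w x y z
  c : ∀ o a b c d, x4 (E o a b c) (E o a b d) (E o a c d) (E o b c d) = E a b c d

section
variable {V : Type} {E : V → V → V → V → ℕ}

theorem Sy4.e3 (hE : Sy4 E) (p q r s : V) : E p r s q = E p q r s := by rw [hE.e2, hE.h1324]
theorem Sy4.e4 (hE : Sy4 E) (p q r s : V) : E q r s p = E p q r s := by
  rw [hE.e2, hE.h1324, hE.h2134]

theorem leaf7_eq (hE : Sy4 E) (q : ℕ → ℕ → ℕ → ℕ) (o a b c d e f : V) :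
    leaf7 q (E o a b c) (E o a b d) (E o a c d) (E o b c d) (E o a b e) (E o a c e) (E o b c e) (E o a d e) (E o b d e) (E o c d e) (E o a b f) (E o a c f) (E o b c f) (E o a d f) (E o b d f) (E o c d f) (E o a e f) (E o b e f) (E o c e f) (E o d e f)
      = L7 E q o a b c d e f := by
  unfold leaf7
  rw [hE.c o a b c d, hE.c o a b c e, hE.c o a b c f, hE.c o a b d e, hE.c o a b d f, hE.c o a b e f, hE.c o a c d e, hE.c o a c d f, hE.c o a c e f, hE.c o a d e f, hE.c o b c d e, hE.c o b c d f, hE.c o b c e f, hE.c o b d e f, hE.c o c d e f]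
  unfold leafD L7 F1
  simp only [Nat.add_eq, hE.e4 o a b c, hE.e3 o a b c, hE.e2 o a b c, hE.e4 o a b d, hE.e3 o a b d, hE.e2 o a b d, hE.e4 o a b e, hE.e3 o a b e, hE.e2 o a b e, hE.e4 o a b f, hE.e3 o a b f, hE.e2 o a b f, hE.e4 o a c d, hE.e3 o a c d, hE.e2 o a c d, hE.e4 o a c e, hE.e3 o a c e, hE.e2 o a c e, hE.e4 o a c f, hE.e3 o a c f, hE.e2 o a c f, hE.e4 o a d e, hE.e3 o a d e, hE.e2 o a d e, hE.e4 o a d f, hE.e3 o a d f, hE.e2 o a d f, hE.e4 o a e f, hE.e3 o a e f, hE.e2 o a e f, hE.e4 o b c d, hE.e3 o b c d, hE.e2 o b c d, hE.e4 o b c e, hE.e3 o b c e, hE.e2 o b c e, hE.e4 o b c f, hE.e3 o b c f, hE.e2 o b c f, hE.e4 o b d e, hE.e3 o b d e, hE.e2 o b d e, hE.e4 o b d f, hE.e3 o b d f, hE.e2 o b d f, hE.e4 o b e f, hE.e3 o b e f, hE.e2 o b e f, hE.e4 o c d e, hE.e3 o c d e, hE.e2 o c d e, hE.e4 o c d f, hE.e3 o c d f, hE.e2 o c d f, hE.e4 o c e f, hE.e3 o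 c e f, hE.e2 o c e f, hE.e4 o d e f, hE.e3 o d e f, hE.e2 o d e f, hE.e4 a b c d, hE.e3 a b c d, hE.e2 a b c d, hE.e4 a b c e, hE.e3 a b c e, hE.e2 a b c e, hE.e4 a b c f, hE.e3 a b c f, hE.e2 a b c f, hE.e4 a b d e, hE.e3 a b d e, hE.e2 a b d e, hE.e4 a b d f, hE.e3 a b d f, hE.e2 a b d f, hE.e4 a b e f, hE.e3 a b e f, hE.e2 a b e f, hE.e4 a c d e, hE.e3 a c d e, hE.e2 a c d e, hE.e4 a c d f, hE.e3 a c d f, hE.e2 a c d f, hE.e4 a c e f, hE.e3 a c e f, hE.e2 a c e f, hE.e4 a d e f, hE.e3 a d e f, hE.e2 a d e f, hE.e4 b c d e, hE.e3 b c d e, hE.e2 b c d e, hE.e4 b c d f, hE.e3 b c d f, hE.e2 b c d f, hE.e4 b c e f, hE.e3 b c e f, hE.e2 b c e f, hE.e4 b d e f, hE.e3 b d e f, hE.e2 b d e f, hE.e4 c d e f, hE.e3 c d e f, hE.e2 c d e f]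
  ring

theorem sym7_all {q : ℕ → ℕ → ℕ → ℕ} (hs : sym7 q = true) (p0 p1 p2 p3 i0 i1 i2 i3 i4 i5 j0 j1 j2 j3 j4 j5 : ℕ) (hp0 : Bt p0) (hp1 : Bt p1) (hp2 : Bt p2) (hp3 : Bt p3) (hi0 : Bt i0) (hi1 : Bt i1) (hi2 : Bt i2) (hi3 : Bt i3) (hi4 : Bt i4) (hi5 : Bt i5) (hj0 : Bt j0) (hj1 : Bt j1) (hj2 : Bt j2) (hj3 : Bt j3) (hj4 : Bt j4) (hj5 : Bt j5) :
    (q (cd4 p0 p1 p2 (x4 p0 p1 p2 p3)) (cd6 i0 i1 (x4 p0 i0 i1 i2) i3 (x4 p1 i0 i3 i4) (x4 p2 i1 i3 i5)) (cd6 j0 j1 (x4 p0 j0 j1 j2) j3 (x4 p1 j0 j3 j4) (x4 p2 j1 j3 j5)) = q (cd4 p0 p1 p2 p3) (cd6 i0 i1 i2 i3 i4 i5) (cd6 j0 j1 j2 j3 j4 j5))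
    ∧ (q (cd4 p0 p1 p3 p2) (cd6 i0 i2 i1 i4 i3 i5) (cd6 j0 j2 j1 j4 j3 j5) = q (cd4 p0 p1 p2 p3) (cd6 i0 i1 i2 i3 i4 i5) (cd6 j0 j1 j2 j3 j4 j5))
    ∧ (q (cd4 p0 p2 p1 p3) (cd6 i1 i0 i2 i3 i5 i4) (cd6 j1 j0 j2 j3 j5 j4) = q (cd4 p0 p1 p2 p3) (cd6 i0 i1 i2 i3 i4 i5) (cd6 j0 j1 j2 j3 j4 j5))
    ∧ (q (cd4 p1 p0 p2 p3) (cd6 i0 i3 i4 i1 i2 i5) (cd6 j0 j3 j4 j1 j2 j5) = q (cd4 p0 p1 p2 p3) (cd6 i0 i1 i2 i3 i4 i5) (cd6 j0 j1 j2 j3 j4 j5))
    ∧ (q (cd4 p0 p1 p2 p3) (cd6 j0 j1 j2 j3 j4 j5) (cd6 i0 i1 i2 i3 i4 i5) = q (cd4 p0 p1 p2 p3) (cd6 i0 i1 i2 i3 i4 i5) (cd6 j0 j1 j2 j3 j4 j5)) := by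
  have h := (B2_true (B2_true (B2_true (B2_true (B2_true (B2_true (B2_true (B2_true (B2_true (B2_true (B2_true (B2_true (B2_true (B2_true (B2_true (B2_true hs hp0) hp1) hp2) hp3) hi0) hi1) hi2) hi3) hi4) hi5) hj0) hj1) hj2) hj3) hj4) hj5)
  simp only [Bool.and_eq_true] at h
  exact ⟨Nat.eq_of_beq_eq_true h.1, Nat.eq_of_beq_eq_true h.2.1, Nat.eq_of_beq_eq_true h.2.2.1,
    Nat.eq_of_beq_eq_true h.2.2.2.1, Nat.eq_of_beq_eq_true h.2.2.2.2⟩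

theorem F1_s0 (hE : Sy4 E) {q : ℕ → ℕ → ℕ → ℕ} (hs : sym7 q = true) (a b c d e f g : V) :
    F1 E q b a c d e f g = F1 E q a b c d e f g := by
  have h := (sym7_all hs (E a b c d) (E a b c e) (E a b d e) (E a c d e) (E a b c f) (E a b d f) (E a c d f) (E a b e f) (E a c e f) (E a d e f) (E a b c g) (E a b d g) (E a c d g) (E a b e g) (E a c e g) (E a d e g)
    (hE.b _ _ _ _) (hE.b _ _ _ _) (hE.b _ _ _ _) (hE.b _ _ _ _) (hE.b _ _ _ _) (hE.b _ _ _ _) (hE.b _ _ _ _) (hE.b _ _ _ _) (hE.b _ _ _ _) (hE.b _ _ _ _) (hE.b _ _ _ _) (hE.b _ _ _ _) (hE.b _ _ _ _) (hE.b _ _ _ _) (hE.b _ _ _ _) (hE.b _ _ _ _)).1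
  unfold F1
  rw [← h, hE.c a b c d e, hE.c a b c d f, hE.c a b c e f, hE.c a b d e f, hE.c a b c d g,
    hE.c a b c e g, hE.c a b d e g, hE.h2134 a b c d, hE.h2134 a b c e, hE.h2134 a b d e,
    hE.h2134 a b c f, hE.h2134 a b d f, hE.h2134 a b e f, hE.h2134 a b c g, hE.h2134 a b d g,
    hE.h2134 a b e g]

theorem F1_s1 (hE : Sy4 E) {q : ℕ → ℕ → ℕ → ℕ} (hs : sym7 q = true) (a b c d e f g : V) :
    F1 E q a c b d e f g = F1 E q a b c d e f g := by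
  have h := (sym7_all hs (E a b c d) (E a b c e) (E a b d e) (E a c d e) (E a b c f) (E a b d f) (E a c d f) (E a b e f) (E a c e f) (E a d e f) (E a b c g) (E a b d g) (E a c d g) (E a b e g) (E a c e g) (E a d e g)
    (hE.b _ _ _ _) (hE.b _ _ _ _) (hE.b _ _ _ _) (hE.b _ _ _ _) (hE.b _ _ _ _) (hE.b _ _ _ _) (hE.b _ _ _ _) (hE.b _ _ _ _) (hE.b _ _ _ _) (hE.b _ _ _ _) (hE.b _ _ _ _) (hE.b _ _ _ _) (hE.b _ _ _ _) (hE.b _ _ _ _) (hE.b _ _ _ _) (hE.b _ _ _ _)).2.1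
  unfold F1
  rw [← h, hE.h1324 a b c d, hE.h1324 a b c e, hE.h1324 a b c f, hE.h1324 a b c g]

theorem F1_s2 (hE : Sy4 E) {q : ℕ → ℕ → ℕ → ℕ} (hs : sym7 q = true) (a b c d e f g : V) :
    F1 E q a b d c e f g = F1 E q a b c d e f g := by
  have h := (sym7_all hs (E a b c d) (E a b c e) (E a b d e) (E a c d e) (E a b c f) (E a b d f) (E a c d f) (E a b e f) (E a c e f) (E a d e f) (E a b c g) (E a b d g) (E a c d g) (E a b e g) (E a c e g) (E a d e g)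
    (hE.b _ _ _ _) (hE.b _ _ _ _) (hE.b _ _ _ _) (hE.b _ _ _ _) (hE.b _ _ _ _) (hE.b _ _ _ _) (hE.b _ _ _ _) (hE.b _ _ _ _) (hE.b _ _ _ _) (hE.b _ _ _ _) (hE.b _ _ _ _) (hE.b _ _ _ _) (hE.b _ _ _ _) (hE.b _ _ _ _) (hE.b _ _ _ _) (hE.b _ _ _ _)).2.2.1
  unfold F1
  rw [← h, hE.e2 a b c d, hE.h1324 a c d e, hE.h1324 a c d f, hE.h1324 a c d g]

theorem F1_s3 (hE : Sy4 E) {q : ℕ → ℕ → ℕ → ℕ} (hs : sym7 q = true) (a b c d e f g : V) :
    F1 E q a b c e d f g = F1 E q a b c d e f g := by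
  have h := (sym7_all hs (E a b c d) (E a b c e) (E a b d e) (E a c d e) (E a b c f) (E a b d f) (E a c d f) (E a b e f) (E a c e f) (E a d e f) (E a b c g) (E a b d g) (E a c d g) (E a b e g) (E a c e g) (E a d e g)
    (hE.b _ _ _ _) (hE.b _ _ _ _) (hE.b _ _ _ _) (hE.b _ _ _ _) (hE.b _ _ _ _) (hE.b _ _ _ _) (hE.b _ _ _ _) (hE.b _ _ _ _) (hE.b _ _ _ _) (hE.b _ _ _ _) (hE.b _ _ _ _) (hE.b _ _ _ _) (hE.b _ _ _ _) (hE.b _ _ _ _) (hE.b _ _ _ _) (hE.b _ _ _ _)).2.2.2.1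
  unfold F1
  rw [← h, hE.e2 a b d e, hE.e2 a c d e, hE.h1324 a d e f, hE.h1324 a d e g]

theorem F1_s4 (hE : Sy4 E) {q : ℕ → ℕ → ℕ → ℕ} (hs : sym7 q = true) (a b c d e f g : V) :
    F1 E q a b c d e g f = F1 E q a b c d e f g := by
  have h := (sym7_all hs (E a b c d) (E a b c e) (E a b d e) (E a c d e) (E a b c f) (E a b d f) (E a c d f) (E a b e f) (E a c e f) (E a d e f) (E a b c g) (E a b d g) (E a c d g) (E a b e g) (E a c e g) (E a d e g)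
    (hE.b _ _ _ _) (hE.b _ _ _ _) (hE.b _ _ _ _) (hE.b _ _ _ _) (hE.b _ _ _ _) (hE.b _ _ _ _) (hE.b _ _ _ _) (hE.b _ _ _ _) (hE.b _ _ _ _) (hE.b _ _ _ _) (hE.b _ _ _ _) (hE.b _ _ _ _) (hE.b _ _ _ _) (hE.b _ _ _ _) (hE.b _ _ _ _) (hE.b _ _ _ _)).2.2.2.2
  unfold F1
  exact h

theorem L7_sw0 (hE : Sy4 E) {q : ℕ → ℕ → ℕ → ℕ} (hs : sym7 q = true) (o a b c d e f : V) :
    L7 E q o b a c d e f = L7 E q o a b c d e f := by
  unfold L7
  rw [F1_s0 hE hs a b d e f o c, F1_s0 hE hs a b c e f o d, F1_s0 hE hs a b c d f o e, F1_s0 hE hs a b c d e o f, F1_s4 hE hs o c d e f a b, F1_s1 hE hs o a b e f c d, F1_s1 hE hs o a b d f c e, F1_s1 hE hs o a b d e c f, F1_s1 hE hs o a b c f d e, F1_s1 hE hs o a b c e d f, F1_s1 hE hs o a b c d e f]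
  ring

theorem L7_sw1 (hE : Sy4 E) {q : ℕ → ℕ → ℕ → ℕ} (hs : sym7 q = true) (o a b c d e f : V) :
    L7 E q o a c b d e f = L7 E q o a b c d e f := by
  unfold L7
  rw [F1_s0 hE hs b c d e f o a, F1_s1 hE hs a b c e f o d, F1_s1 hE hs a b c d f o e, F1_s1 hE hs a b c d e o f, F1_s1 hE hs o b c e f a d, F1_s1 hE hs o b c d f a e, F1_s1 hE hs o b c d e a f, F1_s4 hE hs o a d e f b c, F1_s2 hE hs o a b c f d e, F1_s2 hE hs o a b c e d f, F1_s2 hE hs o a b c d e f]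
  ring

theorem L7_sw2 (hE : Sy4 E) {q : ℕ → ℕ → ℕ → ℕ} (hs : sym7 q = true) (o a b c d e f : V) :
    L7 E q o a b d c e f = L7 E q o a b c d e f := by
  unfold L7
  rw [F1_s1 hE hs b c d e f o a, F1_s1 hE hs a c d e f o b, F1_s2 hE hs a b c d f o e, F1_s2 hE hs a b c d e o f, F1_s1 hE hs o c d e f a b, F1_s2 hE hs o b c d f a e, F1_s2 hE hs o b c d e a f, F1_s2 hE hs o a c d f b e, F1_s2 hE hs o a c d e b f, F1_s4 hE hs o a b e f c d, F1_s3 hE hs o a b c d e f]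
  ring

theorem L7_sw3 (hE : Sy4 E) {q : ℕ → ℕ → ℕ → ℕ} (hs : sym7 q = true) (o a b c d e f : V) :
    L7 E q o a b c e d f = L7 E q o a b c d e f := by
  unfold L7
  rw [F1_s2 hE hs b c d e f o a, F1_s2 hE hs a c d e f o b, F1_s2 hE hs a b d e f o c, F1_s3 hE hs a b c d e o f, F1_s2 hE hs o c d e f a b, F1_s2 hE hs o b d e f a c, F1_s3 hE hs o b c d e a f, F1_s2 hE hs o a d e f b c, F1_s3 hE hs o a c d e b f, F1_s3 hE hs o a b d e c f, F1_s4 hE hs o a b c f d e]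
  ring

def Good (E : V → V → V → V → ℕ) (o : V) (q : ℕ → ℕ → ℕ → ℕ) (C : ℕ) (b012 b013 b023 b123 b014 b024 b124 b034 b134 b234 : ℕ) : Prop :=
  ∀ a b c d e f : V, E o a b c = b012 → E o a b d = b013 → E o a c d = b023 → E o b c d = b123 → E o a b e = b014 → E o a c e = b024 → E o b c e = b124 → E o a d e = b034 → E o b d e = b134 → E o c d e = b234 →
    L7 E q o a b c d e f ≤ C

theorem good_sw0 (hE : Sy4 E) {o : V} {q : ℕ → ℕ → ℕ → ℕ} {C : ℕ} (hs : sym7 q = true)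
    (b012 b013 b023 b123 b014 b024 b124 b034 b134 b234 : ℕ)
    (h : Good E o q C b012 b013 b123 b023 b014 b124 b024 b134 b034 b234) : Good E o q C b012 b013 b023 b123 b014 b024 b124 b034 b134 b234 := by
  intro a b c d e f h0 h1 h2 h3 h4 h5 h6 h7 h8 h9
  have h' := h b a c d e f ((hE.h1324 _ _ _ _).trans h0) ((hE.h1324 _ _ _ _).trans h1) h3 h2 ((hE.h1324 _ _ _ _).trans h4) h6 h5 h8 h7 h9
  rwa [L7_sw0 hE hs] at h'

theorem good_sw1 (hE : Sy4 E) {o : V} {q : ℕ → ℕ → ℕ → ℕ} {C : ℕ} (hs : sym7 q = true)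
    (b012 b013 b023 b123 b014 b024 b124 b034 b134 b234 : ℕ)
    (h : Good E o q C b012 b023 b013 b123 b024 b014 b124 b034 b234 b134) : Good E o q C b012 b013 b023 b123 b014 b024 b124 b034 b134 b234 := by
  intro a b c d e f h0 h1 h2 h3 h4 h5 h6 h7 h8 h9
  have h' := h a c b d e f ((hE.e2 _ _ _ _).trans h0) h2 h1 ((hE.h1324 _ _ _ _).trans h3) h5 h4 ((hE.h1324 _ _ _ _).trans h6) h7 h9 h8
  rwa [L7_sw1 hE hs] at h'

theorem good_sw2 (hE : Sy4 E) {o : V} {q : ℕ → ℕ → ℕ → ℕ} {C : ℕ} (hs : sym7 q = true)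
    (b012 b013 b023 b123 b014 b024 b124 b034 b134 b234 : ℕ)
    (h : Good E o q C b013 b012 b023 b123 b014 b034 b134 b024 b124 b234) : Good E o q C b012 b013 b023 b123 b014 b024 b124 b034 b134 b234 := by
  intro a b c d e f h0 h1 h2 h3 h4 h5 h6 h7 h8 h9
  have h' := h a b d c e f h1 h0 ((hE.e2 _ _ _ _).trans h2) ((hE.e2 _ _ _ _).trans h3) h4 h7 h8 h5 h6 ((hE.h1324 _ _ _ _).trans h9)
  rwa [L7_sw2 hE hs] at h'

theorem good_sw3 (hE : Sy4 E) {o : V} {q : ℕ → ℕ → ℕ → ℕ} {C : ℕ} (hs : sym7 q = true)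
    (b012 b013 b023 b123 b014 b024 b124 b034 b134 b234 : ℕ)
    (h : Good E o q C b012 b014 b024 b124 b013 b023 b123 b034 b134 b234) : Good E o q C b012 b013 b023 b123 b014 b024 b124 b034 b134 b234 := by
  intro a b c d e f h0 h1 h2 h3 h4 h5 h6 h7 h8 h9
  have h' := h a b c e d f h0 h4 h5 h6 h1 h2 h3 ((hE.e2 _ _ _ _).trans h7) ((hE.e2 _ _ _ _).trans h8) ((hE.e2 _ _ _ _).trans h9)
  rwa [L7_sw3 hE hs] at h'

theorem walk_good (hE : Sy4 E) {o : V} {q : ℕ → ℕ → ℕ → ℕ} {C : ℕ} (hs : sym7 q = true)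
    (hr : ∀ b012 b013 b023 b123 b014 b024 b124 b034 b134 b234 : ℕ, tg5 b012 b013 b023 b123 b014 b024 b124 b034 b134 b234 = 4 → Good E o q C b012 b013 b023 b123 b014 b024 b124 b034 b134 b234) (n : ℕ) :
    ∀ b012 b013 b023 b123 b014 b024 b124 b034 b134 b234 : ℕ, walk5 n b012 b013 b023 b123 b014 b024 b124 b034 b134 b234 = true → Good E o q C b012 b013 b023 b123 b014 b024 b124 b034 b134 b234 := by
  induction n with
  | zero =>
    intro b012 b013 b023 b123 b014 b024 b124 b034 b134 b234 h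
    exact hr _ _ _ _ _ _ _ _ _ _ (Nat.eq_of_beq_eq_true h)
  | succ n ih =>
    intro b012 b013 b023 b123 b014 b024 b124 b034 b134 b234 h
    change (cond (Nat.beq (tg5 b012 b013 b023 b123 b014 b024 b124 b034 b134 b234) 4) true
      (cond (Nat.beq (tg5 b012 b013 b023 b123 b014 b024 b124 b034 b134 b234) 0) (walk5 n b012 b013 b123 b023 b014 b124 b024 b134 b034 b234)
      (cond (Nat.beq (tg5 b012 b013 b023 b123 b014 b024 b124 b034 b134 b234) 1) (walk5 n b012 b023 b013 b123 b024 b014 b124 b034 b234 b134)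
      (cond (Nat.beq (tg5 b012 b013 b023 b123 b014 b024 b124 b034 b134 b234) 2) (walk5 n b013 b012 b023 b123 b014 b034 b134 b024 b124 b234)
      (cond (Nat.beq (tg5 b012 b013 b023 b123 b014 b024 b124 b034 b134 b234) 3) (walk5 n b012 b014 b024 b124 b013 b023 b123 b034 b134 b234) false))))) = true at h
    cases h4 : Nat.beq (tg5 b012 b013 b023 b123 b014 b024 b124 b034 b134 b234) 4 with
    | true => exact hr _ _ _ _ _ _ _ _ _ _ (Nat.eq_of_beq_eq_true h4)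
    | false =>
    rw [h4] at h
    cases h0 : Nat.beq (tg5 b012 b013 b023 b123 b014 b024 b124 b034 b134 b234) 0 with
    | true => rw [h0] at h; exact good_sw0 hE hs _ _ _ _ _ _ _ _ _ _ (ih _ _ _ _ _ _ _ _ _ _ h)
    | false =>
    rw [h0] at h
    cases h1 : Nat.beq (tg5 b012 b013 b023 b123 b014 b024 b124 b034 b134 b234) 1 with
    | true => rw [h1] at h; exact good_sw1 hE hs _ _ _ _ _ _ _ _ _ _ (ih _ _ _ _ _ _ _ _ _ _ h)
    | false =>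
    rw [h1] at h
    cases h2 : Nat.beq (tg5 b012 b013 b023 b123 b014 b024 b124 b034 b134 b234) 2 with
    | true => rw [h2] at h; exact good_sw2 hE hs _ _ _ _ _ _ _ _ _ _ (ih _ _ _ _ _ _ _ _ _ _ h)
    | false =>
    rw [h2] at h
    cases h3 : Nat.beq (tg5 b012 b013 b023 b123 b014 b024 b124 b034 b134 b234) 3 with
    | true => rw [h3] at h; exact good_sw3 hE hs _ _ _ _ _ _ _ _ _ _ (ih _ _ _ _ _ _ _ _ _ _ h)
    | false => rw [h3] at h; simp at h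

theorem chk_good (hE : Sy4 E) {o : V} {q : ℕ → ℕ → ℕ → ℕ} {C : ℕ} (a b c d e f : V)
    (h : chk7 q C (E o a b c) (E o a b d) (E o a c d) (E o b c d) (E o a b e) (E o a c e) (E o b c e) (E o a d e) (E o b d e) (E o c d e) = true) : L7 E q o a b c d e f ≤ C := by
  rw [← leaf7_eq hE]
  exact Nat.le_of_ble_eq_true (B2_true (B2_true (B2_true (B2_true (B2_true (B2_true (B2_true (B2_true (B2_true (B2_true h (hE.b _ _ _ _)) (hE.b _ _ _ _)) (hE.b _ _ _ _)) (hE.b _ _ _ _)) (hE.b _ _ _ _)) (hE.b _ _ _ _)) (hE.b _ _ _ _)) (hE.b _ _ _ _)) (hE.b _ _ _ _)) (hE.b _ _ _ _))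

theorem part_true {b c : Bool} (h : (not b || c) = true) (hb : b = true) : c = true := by
  rw [hb] at h; exact h

theorem leaf_all (hE : Sy4 E) {q : ℕ → ℕ → ℕ → ℕ} {C : ℕ} (hs : sym7 q = true)
    (hp : ∀ x y z w u v, Bt x → Bt y → Bt z → Bt w → Bt u → Bt v → part7 q C x y z w u v = true)
    (o a b c d e f : V) :
    L7 E q o a b c d e f ≤ C := by
  have hq : ∀ a b c d e f : V, (k5b (E o a b c) (E o a b d) (E o a c d) (E o b c d) (E o a b e) (E o a c e) (E o b c e) (E o a d e) (E o b d e) (E o c d e)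
      || Nat.beq (tg5 (E o a b c) (E o a b d) (E o a c d) (E o b c d) (E o a b e) (E o a c e) (E o b c e) (E o a d e) (E o b d e) (E o c d e)) 4) = true →
      L7 E q o a b c d e f ≤ C := by
    intro a b c d e f h
    have hp := hp (E o a b c) (E o a b d) (E o a c d) (E o b c d) (E o a b e) (E o a c e)
      (hE.b _ _ _ _) (hE.b _ _ _ _) (hE.b _ _ _ _) (hE.b _ _ _ _) (hE.b _ _ _ _) (hE.b _ _ _ _)
    exact chk_good hE a b c d e f (part_true (B2_true (B2_true (B2_true (B2_true hp (hE.b _ _ _ _)) (hE.b _ _ _ _)) (hE.b _ _ _ _)) (hE.b _ _ _ _)) h)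
  have h := (B2_true (B2_true (B2_true (B2_true (B2_true (B2_true (B2_true (B2_true (B2_true (B2_true walk5_all (hE.b o a b c)) (hE.b o a b d)) (hE.b o a c d)) (hE.b o b c d)) (hE.b o a b e)) (hE.b o a c e)) (hE.b o b c e)) (hE.b o a d e)) (hE.b o b d e)) (hE.b o c d e))
  rw [Bool.or_eq_true] at h
  rcases h with h | h
  · exact hq a b c d e f (by rw [h]; rfl)
  · refine walk_good hE hs ?_ _ _ _ _ _ _ _ _ _ _ _ h a b c d e f rfl rfl rfl rfl rfl rfl rfl rfl rfl rfl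
    intro b012 b013 b023 b123 b014 b024 b124 b034 b134 b234 h4
    intro a b c d e f h0 h1 h2 h3 h4' h5 h6 h7 h8 h9
    subst h0 h1 h2 h3 h4' h5 h6 h7 h8 h9
    exact hq a b c d e f (by rw [h4, Bool.or_eq_true]; exact Or.inr rfl)

end
end Pool.Agent.Helper27.E7
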