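import Pool.Agent.Helper27.E7.Fam

/-! The construction: two copies of a binary vector space. -/

set_option autoImplicit false
set_option maxRecDepth 100000
set_option maxHeartbeats 400000
open Finset

namespace Pool.Agent.Helper27.E7.Low
open Pool.Agent.Helper27.E7

/-- binary vectors -/
abbrev W (k : ℕ) := Fin k → ZMod 2

/-- two copies -/
abbrev Vk (k : ℕ) := Bool × W k

variable {k : ℕ}

/-- the part of a set in the first copy -/
def pa (e : Finset (Vk k)) : Finset (Vk k) := e.filter (fun v => v.1 = true)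
def pb (e : Finset (Vk k)) : Finset (Vk k) := e.filter (fun v => v.1 = false)

/-- sums of the vectors in the two parts -/
def al (e : Finset (Vk k)) : W k := ∑ v ∈ pa e, v.2
def be (e : Finset (Vk k)) : W k := ∑ v ∈ pb e, v.2

/-- the membership function -/
def ev (e : Finset (Vk k)) : ZMod 2 :=
  if (pa e).card = 2 then al e ⬝ᵥ be e else ((pa e).card : ZMod 2)

/-- four-sets with an odd number of vertices in each copy, or two in each copy with an odd product of
the sums -/
def G (k : ℕ) : Finset (Finset (Vk k)) := ((univ : Finset (Vk k)).powersetCard 4).filter (fun e => ev e = 1)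

theorem mem_G {e : Finset (Vk k)} : e ∈ G k ↔ e.card = 4 ∧ ev e = 1 := by
  unfold G
  rw [mem_filter, mem_powersetCard]
  exact ⟨fun h => ⟨h.1.2, h.2⟩, fun h => ⟨⟨subset_univ _, h.1⟩, h.2⟩⟩

theorem card_pab (e : Finset (Vk k)) : (pa e).card + (pb e).card = e.card := by
  unfold pa pb
  have h := card_filter_add_card_filter_not (s := e) (fun v : Vk k => v.1 = true)
  rw [← h]
  congr 2
  refine filter_congr fun v _ => ?_
  simp

theorem pa_erase_a {S : Finset (Vk k)} {x : Vk k} (hx : x ∈ pa S) :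
    pa (S.erase x) = (pa S).erase x ∧ pb (S.erase x) = pb S := by
  unfold pa pb at *
  rw [filter_erase, filter_erase]
  refine ⟨rfl, erase_eq_of_notMem ?_⟩
  intro h
  have h1 := (mem_filter.mp hx).2
  have h2 := (mem_filter.mp h).2
  rw [h1] at h2
  exact absurd h2 (by decide)

theorem pa_erase_b {S : Finset (Vk k)} {x : Vk k} (hx : x ∈ pb S) :
    pa (S.erase x) = pa S ∧ pb (S.erase x) = (pb S).erase x := by
  unfold pa pb at *
  rw [filter_erase, filter_erase]
  refine ⟨erase_eq_of_notMem ?_, rfl⟩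
  intro h
  have h1 := (mem_filter.mp hx).2
  have h2 := (mem_filter.mp h).2
  rw [h1] at h2
  exact absurd h2 (by decide)

theorem sum_erase2 (s : Finset (Vk k)) {x : Vk k} (hx : x ∈ s) :
    ∑ v ∈ s.erase x, v.2 = ∑ v ∈ s, v.2 - x.2 := by
  rw [eq_sub_iff_add_eq, sum_erase_add _ _ hx]

theorem ev_erase_a {S : Finset (Vk k)} {x : Vk k} (hx : x ∈ pa S) :
    ev (S.erase x) = if (pa S).card = 3 then (al S - x.2) ⬝ᵥ be S else ((pa S).card - 1 : ZMod 2) := by
  have h1 := pa_erase_a hx
  have h2 : 0 < (pa S).card := card_pos.mpr ⟨x, hx⟩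
  unfold ev al be
  rw [h1.1, h1.2, card_erase_of_mem hx, sum_erase2 _ hx]
  by_cases h3 : (pa S).card = 3
  · rw [if_pos (by omega), if_pos h3]
  · rw [if_neg (by omega), if_neg h3, Nat.cast_sub h2, Nat.cast_one]

theorem ev_erase_b {S : Finset (Vk k)} {x : Vk k} (hx : x ∈ pb S) :
    ev (S.erase x) = if (pa S).card = 2 then al S ⬝ᵥ (be S - x.2) else ((pa S).card : ZMod 2) := by
  have h1 := pa_erase_b hx
  unfold ev al be
  rw [h1.1, h1.2, sum_erase2 _ hx]

theorem z3 (c : ZMod 2) : (3 : ZMod 2) * c - c = 0 := by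
  revert c; decide

/-- evenness -/
theorem ev_sum {S : Finset (Vk k)} (hS : S.card = 5) : ∑ x ∈ S, ev (S.erase x) = 0 := by
  have hsplit : ∑ x ∈ S, ev (S.erase x) = ∑ x ∈ pa S, ev (S.erase x) + ∑ x ∈ pb S, ev (S.erase x) := by
    unfold pa pb
    rw [← sum_filter_add_sum_filter_not S (fun v : Vk k => v.1 = true)]
    congr 1
    refine sum_congr (filter_congr fun v _ => ?_) fun _ _ => rfl
    simp
  have hc := card_pab S
  rw [hS] at hc
  rw [hsplit, sum_congr rfl fun x hx => ev_erase_a hx, sum_congr rfl fun x hx => ev_erase_b hx]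
  have e1 : ∑ x ∈ pa S, (al S - x.2) ⬝ᵥ be S = ((pa S).card : ZMod 2) * (al S ⬝ᵥ be S) - al S ⬝ᵥ be S := by
    have : ∀ x ∈ pa S, (al S - x.2) ⬝ᵥ be S = al S ⬝ᵥ be S - x.2 ⬝ᵥ be S := fun x _ => sub_dotProduct _ _ _
    rw [sum_congr rfl this, sum_sub_distrib, sum_const, nsmul_eq_mul, ← sum_dotProduct]
    rfl
  have e2 : ∑ x ∈ pb S, al S ⬝ᵥ (be S - x.2) = ((pb S).card : ZMod 2) * (al S ⬝ᵥ be S) - al S ⬝ᵥ be S := by
    have : ∀ x ∈ pb S, al S ⬝ᵥ (be S - x.2) = al S ⬝ᵥ be S - al S ⬝ᵥ x.2 := fun x _ => dotProduct_sub _ _ _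
    rw [sum_congr rfl this, sum_sub_distrib, sum_const, nsmul_eq_mul, ← dotProduct_sum]
    rfl
  obtain ⟨m, hm⟩ : ∃ m, (pa S).card = m := ⟨_, rfl⟩
  have hm5 : m ≤ 5 := by omega
  have hb : (pb S).card = 5 - m := by omega
  by_cases h3 : m = 3
  · subst h3
    rw [sum_congr rfl fun x _ => if_pos hm, sum_congr rfl fun x _ => if_neg (by omega), e1, hm,
      sum_const, hb]
    simp only [nsmul_eq_mul]
    rw [show ((3 : ℕ) : ZMod 2) = 3 from rfl, z3, show ((5 - 3 : ℕ) : ZMod 2) = 0 from rfl]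
    simp
  · by_cases h2 : m = 2
    · subst h2
      rw [sum_congr rfl fun x _ => if_neg (by omega), sum_congr rfl fun x _ => if_pos hm, e2, hb,
        sum_const, hm]
      simp only [nsmul_eq_mul]
      rw [show ((5 - 2 : ℕ) : ZMod 2) = 3 from rfl, z3, show ((2 : ℕ) : ZMod 2) = 0 from rfl]
      simp
    · rw [sum_congr rfl fun x _ => if_neg (by omega), sum_congr rfl fun x _ => if_neg (by omega),
        sum_const, sum_const, hm, hb]
      simp only [nsmul_eq_mul]
      interval_cases m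
      · decide
      · decide
      · exact absurd rfl h2
      · exact absurd rfl h3
      · decide
      · decide

theorem even_G (k : ℕ) : EvenFour (G k) := by
  refine ⟨fun e he => (mem_G.mp he).1, fun S hS => ?_⟩
  rw [inside5 (fun e he => (mem_G.mp he).1) S hS]
  have h1 : ((∑ x ∈ S, (if S.erase x ∈ G k then 1 else 0) : ℕ) : ZMod 2) = ∑ x ∈ S, ev (S.erase x) := by
    push_cast
    refine sum_congr rfl fun x hx => ?_
    have hc : (S.erase x).card = 4 := by rw [card_erase_of_mem hx, hS]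
    have h2 : ∀ c : ZMod 2, c = 0 ∨ c = 1 := by decide
    rcases h2 (ev (S.erase x)) with h | h
    · rw [h, if_neg]
      intro h3
      rw [(mem_G.mp h3).2] at h
      exact absurd h (by decide)
    · rw [h, if_pos (mem_G.mpr ⟨hc, h⟩)]
  rw [ev_sum hS, ZMod.natCast_eq_zero_iff] at h1
  exact even_iff_two_dvd.mpr h1

end Pool.Agent.Helper27.E7.Low
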