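import Pool.Agent.Helper27.E7.Low

/-! Codegrees of the construction. -/

set_option autoImplicit false
set_option maxRecDepth 100000
set_option maxHeartbeats 400000
open Finset

namespace Pool.Agent.Helper27.E7.Low
open Pool.Agent.Helper27.E7

theorem codeg_eq {V : Type} [Fintype V] [DecidableEq V] {H : Finset (Finset V)}
    (hH : ∀ e ∈ H, e.card = 4) {T : Finset V} (hT : T.card = 3) :
    codeg H T = (univ.filter (fun d => insert d T ∈ H)).card := by
  unfold codeg
  have hni : ∀ d, insert d T ∈ H → d ∉ T := by
    intro d hd hm
    have := hH _ hd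
    rw [insert_eq_of_mem hm, hT] at this
    omega
  symm
  apply card_bij (fun d _ => insert d T)
  · intro d hd
    rw [mem_filter] at hd ⊢
    exact ⟨hd.2, subset_insert _ _⟩
  · intro d hd d' hd' hdd
    rw [mem_filter] at hd hd'
    have h4 : d ∈ insert d' T := by rw [← hdd]; exact mem_insert_self _ _
    rcases mem_insert.mp h4 with h5 | h5
    · exact h5
    · exact absurd h5 (hni d hd.2)
  · intro s hs
    rw [mem_filter] at hs
    have h4 : (s \ T).card = 1 := by
      rw [card_sdiff_of_subset hs.2, hH s hs.1, hT]
    obtain ⟨d, hd⟩ := card_eq_one.mp h4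
    have h5 : insert d T = s := by
      rw [insert_eq, ← hd, sdiff_union_of_subset hs.2]
    exact ⟨d, mem_filter.mpr ⟨mem_univ _, by rw [h5]; exact hs.1⟩, h5⟩

variable {k : ℕ}

theorem card_W : Fintype.card (W k) = 2 ^ k := by
  rw [Fintype.card_fun, ZMod.card, Fintype.card_fin]

/-- half of the vectors have product 1 with a nonzero vector -/
theorem half {a : W k} (ha : a ≠ 0) : 2 * (univ.filter (fun w : W k => a ⬝ᵥ w = 1)).card = 2 ^ k := by
  obtain ⟨i, hi⟩ : ∃ i, a i ≠ 0 := by
    by_contra h
    push Not at h
    exact ha (funext h)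
  have hi1 : a i = 1 := by
    have : ∀ c : ZMod 2, c ≠ 0 → c = 1 := by decide
    exact this _ hi
  have hs : a ⬝ᵥ (Pi.single i 1) = 1 := by rw [dotProduct_single, hi1, mul_one]
  have hss : (Pi.single i 1 : W k) + Pi.single i 1 = 0 := by
    funext j
    have : ∀ c : ZMod 2, c + c = 0 := by decide
    exact this _
  have h01 : (univ.filter (fun w : W k => a ⬝ᵥ w = 1)).card
      = (univ.filter (fun w : W k => ¬ a ⬝ᵥ w = 1)).card := by
    apply card_bij (fun w _ => w + Pi.single i 1)
    · intro w hw
      rw [mem_filter] at hw ⊢
      rw [dotProduct_add, hs, hw.2]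
      exact ⟨mem_univ _, by decide⟩
    · intro w _ w' _ h
      exact add_right_cancel h
    · intro w hw
      rw [mem_filter] at hw
      refine ⟨w + Pi.single i 1, ?_, ?_⟩
      · rw [mem_filter, dotProduct_add, hs]
        refine ⟨mem_univ _, ?_⟩
        have : ∀ c : ZMod 2, ¬ c = 1 → c + 1 = 1 := by decide
        exact this _ hw.2
      · rw [add_assoc, hss, add_zero]
  have h := card_filter_add_card_filter_not (s := (univ : Finset (W k))) (fun w : W k => a ⬝ᵥ w = 1)
  rw [← h01, card_univ, card_W] at h
  omega

theorem split_count (P : Vk k → Prop) [DecidablePred P] :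
    (univ.filter P).card = (univ.filter (fun u : W k => P (true, u))).card
      + (univ.filter (fun u : W k => P (false, u))).card := by
  rw [card_filter, card_filter, card_filter, Fintype.sum_prod_type, Fintype.sum_bool]

theorem ins_a {T : Finset (Vk k)} {u : W k} (h : (true, u) ∉ T) :
    (pa (insert (true, u) T)).card = (pa T).card + 1 ∧ al (insert (true, u) T) = al T + u
      ∧ be (insert (true, u) T) = be T := by
  have h1 : pa (insert (true, u) T) = insert (true, u) (pa T) := by
    unfold pa; rw [filter_insert, if_pos rfl]
  have h2 : pb (insert (true, u) T) = pb T := by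
    unfold pb; rw [filter_insert, if_neg (by simp)]
  have h3 : (true, u) ∉ pa T := fun h' => h (mem_filter.mp h').1
  refine ⟨by rw [h1, card_insert_of_notMem h3], ?_, ?_⟩
  · unfold al; rw [h1, sum_insert h3, add_comm]
  · unfold be; rw [h2]

theorem ins_b {T : Finset (Vk k)} {u : W k} (h : (false, u) ∉ T) :
    (pa (insert (false, u) T)).card = (pa T).card ∧ al (insert (false, u) T) = al T
      ∧ be (insert (false, u) T) = be T + u := by
  have h1 : pb (insert (false, u) T) = insert (false, u) (pb T) := by
    unfold pb; rw [filter_insert, if_pos rfl]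
  have h2 : pa (insert (false, u) T) = pa T := by
    unfold pa; rw [filter_insert, if_neg (by simp)]
  have h3 : (false, u) ∉ pb T := fun h' => h (mem_filter.mp h').1
  refine ⟨by rw [h2], ?_, ?_⟩
  · unfold al; rw [h2]
  · unfold be; rw [h1, sum_insert h3, add_comm]

theorem memG_ins {T : Finset (Vk k)} (hT : T.card = 3) (d : Vk k) :
    insert d T ∈ G k ↔ d ∉ T ∧ ev (insert d T) = 1 := by
  rw [mem_G]
  constructor
  · rintro ⟨h1, h2⟩
    refine ⟨fun h => ?_, h2⟩
    rw [insert_eq_of_mem h] at h1
    omega
  · rintro ⟨h1, h2⟩
    exact ⟨by rw [card_insert_of_notMem h1, hT], h2⟩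

/-- two vertices of the same copy have different vectors -/
theorem two_ne {s : Finset (Vk k)} (b : Bool) (hs : ∀ v ∈ s, v.1 = b) (hc : s.card = 2) :
    ∑ v ∈ s, v.2 ≠ 0 := by
  obtain ⟨x, y, hxy, rfl⟩ := card_eq_two.mp hc
  rw [sum_pair hxy]
  intro h
  have h1 : x.2 = y.2 := by
    have e : x.2 = x.2 + (y.2 + y.2) := by
      have : y.2 + y.2 = 0 := by
        funext j
        have : ∀ c : ZMod 2, c + c = 0 := by decide
        exact this _
      rw [this, add_zero]
    rw [e, ← add_assoc, h, zero_add]
  apply hxy
  refine Prod.ext ?_ h1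
  rw [hs x (by simp), hs y (by simp)]

theorem al_ne {T : Finset (Vk k)} (h : (pa T).card = 2) : al T ≠ 0 :=
  two_ne true (fun _ hv => (mem_filter.mp hv).2) h

theorem be_ne {T : Finset (Vk k)} (h : (pb T).card = 2) : be T ≠ 0 :=
  two_ne false (fun _ hv => (mem_filter.mp hv).2) h

theorem self_add (x : W k) : x + x = 0 := by
  funext j
  have : ∀ c : ZMod 2, c + c = 0 := by decide
  exact this _

/-- the number of vectors whose vertex in a copy is not in a set -/
theorem count_not (T : Finset (Vk k)) (b : Bool) :
    (univ.filter (fun u : W k => (b, u) ∉ T)).card + (T.filter (fun v => v.1 = b)).card = 2 ^ k := by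
  have h := card_filter_add_card_filter_not (s := (univ : Finset (W k))) (fun u : W k => (b, u) ∈ T)
  rw [card_univ, card_W] at h
  rw [← h, add_comm]
  congr 1
  symm
  apply card_bij (fun u _ => (b, u))
  · intro u hu
    exact mem_filter.mpr ⟨(mem_filter.mp hu).2, rfl⟩
  · intro u _ u' _ h
    exact (Prod.ext_iff.mp h).2
  · intro v hv
    obtain ⟨h1, h2⟩ := mem_filter.mp hv
    exact ⟨v.2, mem_filter.mpr ⟨mem_univ _, by rw [← h2]; exact h1⟩, by rw [← h2]⟩

theorem codeg_mono {T : Finset (Vk k)} (hT : T.card = 3) (h : (pa T).card = 3 ∨ (pa T).card = 0) :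
    codeg (G k) T = 2 ^ k := by
  rw [codeg_eq (even_G k).1 hT, split_count]
  have hc := card_pab T
  rcases h with h | h
  · have e1 : univ.filter (fun u : W k => insert (true, u) T ∈ G k) = ∅ := by
      rw [filter_eq_empty_iff]
      intro u _ hu
      rw [memG_ins hT] at hu
      unfold ev at hu
      rw [(ins_a hu.1).1, h, if_neg (by decide)] at hu
      exact absurd hu.2 (by decide)
    have e2 : univ.filter (fun u : W k => insert (false, u) T ∈ G k)
        = univ.filter (fun u : W k => (false, u) ∉ T) := by
      refine filter_congr fun u _ => ?_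
      rw [memG_ins hT]
      refine ⟨fun h => h.1, fun hu => ⟨hu, ?_⟩⟩
      unfold ev
      rw [(ins_b hu).1, h, if_neg (by decide)]
      decide
    have h3 := count_not T false
    have h4 : (T.filter (fun v => v.1 = false)).card = 0 := by
      show (pb T).card = 0
      omega
    rw [e1, e2, card_empty]
    omega
  · have e1 : univ.filter (fun u : W k => insert (false, u) T ∈ G k) = ∅ := by
      rw [filter_eq_empty_iff]
      intro u _ hu
      rw [memG_ins hT] at hu
      unfold ev at hu
      rw [(ins_b hu.1).1, h, if_neg (by decide)] at hu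
      exact absurd hu.2 (by decide)
    have e2 : univ.filter (fun u : W k => insert (true, u) T ∈ G k)
        = univ.filter (fun u : W k => (true, u) ∉ T) := by
      refine filter_congr fun u _ => ?_
      rw [memG_ins hT]
      refine ⟨fun h => h.1, fun hu => ⟨hu, ?_⟩⟩
      unfold ev
      rw [(ins_a hu).1, h, if_neg (by decide)]
      decide
    have h3 := count_not T true
    have h4 : (T.filter (fun v => v.1 = true)).card = 0 := h
    rw [e1, e2, card_empty]
    omega

theorem codeg_mixed {T : Finset (Vk k)} (hT : T.card = 3) (h : (pa T).card = 1 ∨ (pa T).card = 2) :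
    2 * codeg (G k) T + 4 = 3 * 2 ^ k := by
  rw [codeg_eq (even_G k).1 hT, split_count]
  have hc := card_pab T
  rcases h with h | h
  · have hb : (pb T).card = 2 := by omega
    have e1 : univ.filter (fun u : W k => insert (true, u) T ∈ G k)
        = univ.filter (fun u : W k => be T ⬝ᵥ (al T + u) = 1) := by
      refine filter_congr fun u _ => ?_
      rw [memG_ins hT]
      constructor
      · rintro ⟨h1, h2⟩
        unfold ev at h2
        rw [(ins_a h1).1, h, if_pos rfl, (ins_a h1).2.1, (ins_a h1).2.2, dotProduct_comm] at h2
        exact h2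
      · intro h2
        have h1 : (true, u) ∉ T := by
          intro hm
          obtain ⟨v, hv⟩ := card_eq_one.mp h
          have h3 : (true, u) ∈ pa T := mem_filter.mpr ⟨hm, rfl⟩
          rw [hv, mem_singleton] at h3
          have h4 : al T = u := by
            unfold al
            rw [hv, sum_singleton, ← h3]
          rw [h4, self_add, dotProduct_zero] at h2
          exact absurd h2 (by decide)
        refine ⟨h1, ?_⟩
        unfold ev
        rw [(ins_a h1).1, h, if_pos rfl, (ins_a h1).2.1, (ins_a h1).2.2, dotProduct_comm]
        exact h2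
    have e1' : (univ.filter (fun u : W k => be T ⬝ᵥ (al T + u) = 1)).card
        = (univ.filter (fun w : W k => be T ⬝ᵥ w = 1)).card := by
      apply card_bij (fun u _ => al T + u)
      · intro u hu
        exact mem_filter.mpr ⟨mem_univ _, (mem_filter.mp hu).2⟩
      · intro u _ u' _ hu
        exact add_left_cancel hu
      · intro w hw
        have e : al T + (al T + w) = w := by rw [← add_assoc, self_add, zero_add]
        exact ⟨al T + w, mem_filter.mpr ⟨mem_univ _, by rw [e]; exact (mem_filter.mp hw).2⟩, e⟩
    have e2 : univ.filter (fun u : W k => insert (false, u) T ∈ G k)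
        = univ.filter (fun u : W k => (false, u) ∉ T) := by
      refine filter_congr fun u _ => ?_
      rw [memG_ins hT]
      refine ⟨fun h => h.1, fun hu => ⟨hu, ?_⟩⟩
      unfold ev
      rw [(ins_b hu).1, h, if_neg (by decide)]
      decide
    have h3 := count_not T false
    have h4 : (T.filter (fun v => v.1 = false)).card = 2 := hb
    have h5 := half (be_ne hb)
    rw [e1, e1', e2]
    omega
  · have hb : (pb T).card = 1 := by omega
    have e1 : univ.filter (fun u : W k => insert (false, u) T ∈ G k)
        = univ.filter (fun u : W k => al T ⬝ᵥ (be T + u) = 1) := by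
      refine filter_congr fun u _ => ?_
      rw [memG_ins hT]
      constructor
      · rintro ⟨h1, h2⟩
        unfold ev at h2
        rw [(ins_b h1).1, h, if_pos rfl, (ins_b h1).2.1, (ins_b h1).2.2] at h2
        exact h2
      · intro h2
        have h1 : (false, u) ∉ T := by
          intro hm
          obtain ⟨v, hv⟩ := card_eq_one.mp hb
          have h3 : (false, u) ∈ pb T := mem_filter.mpr ⟨hm, rfl⟩
          rw [hv, mem_singleton] at h3
          have h4 : be T = u := by
            unfold be
            rw [hv, sum_singleton, ← h3]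
          rw [h4, self_add, dotProduct_zero] at h2
          exact absurd h2 (by decide)
        refine ⟨h1, ?_⟩
        unfold ev
        rw [(ins_b h1).1, h, if_pos rfl, (ins_b h1).2.1, (ins_b h1).2.2]
        exact h2
    have e1' : (univ.filter (fun u : W k => al T ⬝ᵥ (be T + u) = 1)).card
        = (univ.filter (fun w : W k => al T ⬝ᵥ w = 1)).card := by
      apply card_bij (fun u _ => be T + u)
      · intro u hu
        exact mem_filter.mpr ⟨mem_univ _, (mem_filter.mp hu).2⟩
      · intro u _ u' _ hu
        exact add_left_cancel hu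
      · intro w hw
        have e : be T + (be T + w) = w := by rw [← add_assoc, self_add, zero_add]
        exact ⟨be T + w, mem_filter.mpr ⟨mem_univ _, by rw [e]; exact (mem_filter.mp hw).2⟩, e⟩
    have e2 : univ.filter (fun u : W k => insert (true, u) T ∈ G k)
        = univ.filter (fun u : W k => (true, u) ∉ T) := by
      refine filter_congr fun u _ => ?_
      rw [memG_ins hT]
      refine ⟨fun h => h.1, fun hu => ⟨hu, ?_⟩⟩
      unfold ev
      rw [(ins_a hu).1, h, if_neg (by decide)]
      decide
    have h3 := count_not T true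
    have h4 : (T.filter (fun v => v.1 = true)).card = 2 := h
    have h5 := half (al_ne h)
    rw [e1, e1', e2]
    omega

end Pool.Agent.Helper27.E7.Low
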