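import Pool.Agent.Helper27.E7.Low2

/-! Sums over the triples of the construction. -/

set_option autoImplicit false
set_option maxRecDepth 100000
set_option maxHeartbeats 400000
open Finset

namespace Pool.Agent.Helper27.E7.Low
open Pool.Agent.Helper27.E7

variable {k : ℕ}

/-- the triples in one copy -/
def mono (k : ℕ) : Finset (Finset (Vk k)) :=
  ((univ : Finset (Vk k)).powersetCard 3).filter (fun T => (pa T).card = 3 ∨ (pa T).card = 0)

def mixed (k : ℕ) : Finset (Finset (Vk k)) :=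
  ((univ : Finset (Vk k)).powersetCard 3).filter (fun T => ¬ ((pa T).card = 3 ∨ (pa T).card = 0))

theorem side_card (b : Bool) : ((univ : Finset (Vk k)).filter (fun v => v.1 = b)).card = 2 ^ k := by
  rw [split_count]
  cases b <;> simp

theorem mono_card : (mono k).card = 2 * (2 ^ k).choose 3 := by
  have h1 : mono k = (((univ : Finset (Vk k)).filter (fun v => v.1 = true)).powersetCard 3)
      ∪ (((univ : Finset (Vk k)).filter (fun v => v.1 = false)).powersetCard 3) := by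
    ext T
    unfold mono
    rw [mem_filter, mem_union, mem_powersetCard, mem_powersetCard, mem_powersetCard]
    have hc := card_pab T
    constructor
    · rintro ⟨⟨_, hT⟩, h | h⟩
      · left
        have e : pa T = T := eq_of_subset_of_card_le (filter_subset _ _) (by omega)
        refine ⟨fun v hv => ?_, hT⟩
        rw [← e] at hv
        exact mem_filter.mpr ⟨mem_univ _, (mem_filter.mp hv).2⟩
      · right
        have e : pb T = T := eq_of_subset_of_card_le (filter_subset _ _) (by omega)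
        refine ⟨fun v hv => ?_, hT⟩
        rw [← e] at hv
        exact mem_filter.mpr ⟨mem_univ _, (mem_filter.mp hv).2⟩
    · rintro (⟨h, hT⟩ | ⟨h, hT⟩)
      · refine ⟨⟨subset_univ _, hT⟩, Or.inl ?_⟩
        have e : pa T = T := filter_true_of_mem fun v hv => (mem_filter.mp (h hv)).2
        rw [e, hT]
      · refine ⟨⟨subset_univ _, hT⟩, Or.inr ?_⟩
        have e : pb T = T := filter_true_of_mem fun v hv => (mem_filter.mp (h hv)).2
        rw [e] at hc
        omega
  rw [h1, card_union_of_disjoint, card_powersetCard, card_powersetCard, side_card, side_card, two_mul]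
  rw [disjoint_left]
  intro T h2 h3
  rw [mem_powersetCard] at h2 h3
  obtain ⟨v, hv⟩ : T.Nonempty := card_pos.mp (by omega)
  have h4 := (mem_filter.mp (h2.1 hv)).2
  have h5 := (mem_filter.mp (h3.1 hv)).2
  rw [h4] at h5
  exact absurd h5 (by decide)

theorem all_card : (mono k).card + (mixed k).card = (2 * 2 ^ k).choose 3 := by
  unfold mono mixed
  rw [card_filter_add_card_filter_not, card_powersetCard, card_univ, Fintype.card_prod,
    Fintype.card_bool, card_W]

theorem mem_mono {T : Finset (Vk k)} (h : T ∈ mono k) : codeg (G k) T = 2 ^ k := by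
  unfold mono at h
  rw [mem_filter, mem_powersetCard] at h
  exact codeg_mono h.1.2 h.2

theorem mem_mixed {T : Finset (Vk k)} (h : T ∈ mixed k) : 2 * codeg (G k) T + 4 = 3 * 2 ^ k := by
  unfold mixed at h
  rw [mem_filter, mem_powersetCard] at h
  have hc := card_pab T
  exact codeg_mixed h.1.2 (by omega)

theorem sum_split (f : Finset (Vk k) → ℤ) : ∑ T ∈ (univ : Finset (Vk k)).powersetCard 3, f T
    = ∑ T ∈ mono k, f T + ∑ T ∈ mixed k, f T := by
  unfold mono mixed
  rw [sum_filter_add_sum_filter_not]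

theorem choose3 (n : ℕ) : 6 * ((n.choose 3 : ℕ) : ℤ) = n * (n - 1) * (n - 2) := by
  have h := Nat.descFactorial_eq_factorial_mul_choose n 3
  have h2 : (n.descFactorial 3 : ℤ) = n * (n - 1) * (n - 2) := by
    rcases n with _ | _ | n
    · simp [Nat.descFactorial]
    · simp [Nat.descFactorial]
    · simp only [Nat.descFactorial]
      push_cast
      ring
  rw [← h2, h]
  push_cast
  norm_num [Nat.factorial]

theorem mixed_card : 6 * ((mixed k).card : ℤ) = 6 * ((2 : ℤ) ^ k) ^ 2 * ((2 : ℤ) ^ k - 1) := by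
  have h1 := all_card (k := k)
  rw [mono_card] at h1
  have h2 : ((2 * (2 ^ k).choose 3 : ℕ) : ℤ) + ((mixed k).card : ℤ) = ((2 * 2 ^ k).choose 3 : ℕ) := by
    exact_mod_cast h1
  have h3 := choose3 (2 ^ k)
  have h4 := choose3 (2 * 2 ^ k)
  push_cast at h2 h3 h4
  nlinarith [h2, h3, h4]

theorem sumC2 : 24 * ∑ T ∈ (univ : Finset (Vk k)).powersetCard 3, (codeg (G k) T : ℤ) ^ 2
    = 8 * ((2 : ℤ) ^ k) ^ 3 * ((2 : ℤ) ^ k - 1) * ((2 : ℤ) ^ k - 2)
      + 6 * ((2 : ℤ) ^ k) ^ 2 * ((2 : ℤ) ^ k - 1) * (3 * (2 : ℤ) ^ k - 4) ^ 2 := by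
  rw [sum_split]
  have e1 : ∑ T ∈ mono k, (codeg (G k) T : ℤ) ^ 2 = (mono k).card * ((2 : ℤ) ^ k) ^ 2 := by
    rw [sum_congr rfl fun T hT => by rw [mem_mono hT], sum_const, nsmul_eq_mul]
    push_cast
    ring
  have e2 : 4 * ∑ T ∈ mixed k, (codeg (G k) T : ℤ) ^ 2 = (mixed k).card * (3 * (2 : ℤ) ^ k - 4) ^ 2 := by
    have h : ∀ T ∈ mixed k, 4 * (codeg (G k) T : ℤ) ^ 2 = (3 * (2 : ℤ) ^ k - 4) ^ 2 := by
      intro T hT
      have h1 := mem_mixed hT
      have h2 : 2 * (codeg (G k) T : ℤ) + 4 = 3 * (2 : ℤ) ^ k := by exact_mod_cast h1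
      rw [← h2]
      ring
    rw [mul_sum, sum_congr rfl h, sum_const, nsmul_eq_mul]
  have h3 := mixed_card (k := k)
  have h4 := choose3 (2 ^ k)
  rw [e1, mono_card]
  push_cast at h4 ⊢
  have e3 : 24 * (2 * ((2 ^ k).choose 3 : ℤ) * ((2 : ℤ) ^ k) ^ 2 + ∑ T ∈ mixed k, (codeg (G k) T : ℤ) ^ 2)
      = 8 * ((2 : ℤ) ^ k) ^ 2 * (6 * ((2 ^ k).choose 3 : ℤ))
        + 6 * (4 * ∑ T ∈ mixed k, (codeg (G k) T : ℤ) ^ 2) := by ring
  have e4 : 6 * (((mixed k).card : ℤ) * (3 * (2 : ℤ) ^ k - 4) ^ 2)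
      = (6 * ((mixed k).card : ℤ)) * (3 * (2 : ℤ) ^ k - 4) ^ 2 := by ring
  rw [e3, e2, e4, h3, h4]
  ring

theorem sumC1 {V : Type} [Fintype V] [DecidableEq V] {H : Finset (Finset V)}
    (hH : ∀ e ∈ H, e.card = 4) :
    ∑ T ∈ (univ : Finset V).powersetCard 3, (codeg H T : ℤ) = 4 * (H.card : ℤ) := by
  unfold codeg
  have e1 : ∑ T ∈ (univ : Finset V).powersetCard 3, ((H.filter (fun e => T ⊆ e)).card : ℤ)
      = ∑ T ∈ (univ : Finset V).powersetCard 3, ∑ e ∈ H, if T ⊆ e then (1 : ℤ) else 0 := by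
    refine sum_congr rfl fun T _ => ?_
    rw [sum_boole]
  rw [e1, sum_comm]
  have e2 : ∀ e ∈ H, (∑ T ∈ (univ : Finset V).powersetCard 3, if T ⊆ e then (1 : ℤ) else 0) = 4 := by
    intro e he
    rw [sum_boole]
    have e3 : ((univ : Finset V).powersetCard 3).filter (fun T => T ⊆ e) = e.powersetCard 3 := by
      ext T
      rw [mem_filter, mem_powersetCard, mem_powersetCard]
      exact ⟨fun h => ⟨h.2, h.1.2⟩, fun h => ⟨⟨subset_univ _, h.2⟩, h.1⟩⟩
    rw [e3, card_powersetCard, hH e he]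
    rfl
  rw [sum_congr rfl e2, sum_const, nsmul_eq_mul, mul_comm]

theorem cardG : 24 * ((G k).card : ℤ)
    = ((2 : ℤ) ^ k) ^ 2 * ((2 : ℤ) ^ k - 1) * (11 * (2 : ℤ) ^ k - 16) := by
  have h := sumC1 (even_G k).1
  rw [sum_split] at h
  have e1 : ∑ T ∈ mono k, (codeg (G k) T : ℤ) = (mono k).card * ((2 : ℤ) ^ k) := by
    rw [sum_congr rfl fun T hT => by rw [mem_mono hT], sum_const, nsmul_eq_mul]
    push_cast
    ring
  have e2 : 2 * ∑ T ∈ mixed k, (codeg (G k) T : ℤ) = (mixed k).card * (3 * (2 : ℤ) ^ k - 4) := by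
    have h : ∀ T ∈ mixed k, 2 * (codeg (G k) T : ℤ) = 3 * (2 : ℤ) ^ k - 4 := by
      intro T hT
      have h1 := mem_mixed hT
      have h2 : 2 * (codeg (G k) T : ℤ) + 4 = 3 * (2 : ℤ) ^ k := by exact_mod_cast h1
      rw [← h2]
      ring
    rw [mul_sum, sum_congr rfl h, sum_const, nsmul_eq_mul]
  have h3 := mixed_card (k := k)
  have h4 := choose3 (2 ^ k)
  rw [e1, mono_card] at h
  push_cast at h4 h
  have e5 : 48 * ((G k).card : ℤ) = 4 * (2 : ℤ) ^ k * (6 * ((2 ^ k).choose 3 : ℤ))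
      + 6 * (2 * ∑ T ∈ mixed k, (codeg (G k) T : ℤ)) := by linarith
  have e4 : 6 * (((mixed k).card : ℤ) * (3 * (2 : ℤ) ^ k - 4))
      = (6 * ((mixed k).card : ℤ)) * (3 * (2 : ℤ) ^ k - 4) := by ring
  rw [e2, e4, h3, h4] at e5
  linarith

end Pool.Agent.Helper27.E7.Low
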