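import Pool.Agent.Helper27.E7.ComFin

/-! Sums over seven-tuples of the objective functions. -/

set_option autoImplicit false
set_option maxRecDepth 100000
set_option maxHeartbeats 400000
open Finset

namespace Pool.Agent.Helper27.E7
open Pool.Agent.H122R2.N6 Pool.Agent.H37R3.K5

section
variable {V : Type} [Fintype V] (E : V → V → V → V → ℕ)

theorem trip2 (g : Fin 7 → Fin 7) (hg : Function.Bijective g) :
    ∑ x : Fin 7 → V, ((E (x (g 0)) (x (g 1)) (x (g 2)) (x (g 5)) : ℤ)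
      * (E (x (g 0)) (x (g 1)) (x (g 2)) (x (g 6)) : ℤ))
      = (Fintype.card V : ℤ) ^ 2 * ∑ a, ∑ b, ∑ c, (∑ d, (E a b c d : ℤ)) ^ 2 := by
  rw [reix (fun a b c d e f g => (E a b c f : ℤ) * (E a b c g : ℤ)) g hg,
    conv7 (fun a b c d e f g => (E a b c f : ℤ) * (E a b c g : ℤ)), mul_sum]
  refine sum_congr rfl fun a _ => ?_
  rw [mul_sum]
  refine sum_congr rfl fun b _ => ?_
  rw [mul_sum]
  refine sum_congr rfl fun c _ => ?_
  rw [sum_const, card_univ, sum_const, card_univ, ← Finset.sum_mul_sum]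
  simp only [nsmul_eq_mul]
  ring

theorem trip1 (g : Fin 7 → Fin 7) (hg : Function.Bijective g) :
    ∑ x : Fin 7 → V, (E (x (g 0)) (x (g 1)) (x (g 2)) (x (g 5)) : ℤ)
      = (Fintype.card V : ℤ) ^ 3 * ∑ a, ∑ b, ∑ c, ∑ d, (E a b c d : ℤ) := by
  rw [reix (fun a b c d e f g => (E a b c f : ℤ)) g hg,
    conv7 (fun a b c d e f g => (E a b c f : ℤ)), mul_sum]
  refine sum_congr rfl fun a _ => ?_
  rw [mul_sum]
  refine sum_congr rfl fun b _ => ?_
  rw [mul_sum]
  refine sum_congr rfl fun c _ => ?_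
  simp only [sum_const, card_univ, nsmul_eq_mul, ← mul_sum]
  ring

end
end Pool.Agent.Helper27.E7
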