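import Pool.Agent.Helper27.E7.Fam
import Pool.Agent.Helper27.E7.Ord
import Pool.Agent.Helper27.E7.ARob

/-! The upper bound for families of four-sets. -/

set_option autoImplicit false
set_option linter.unusedVariables false
set_option maxRecDepth 100000
set_option maxHeartbeats 400000
open Finset

namespace Pool.Agent.Helper27.E7
open Pool.Agent.H122R2.N6 Pool.Agent.H37R3.K5

section
variable {V : Type} [Fintype V] [DecidableEq V]

def e3 (V : Type) : (Fin 3 → V) ≃ V × V × V where
  toFun x := (x 0, x 1, x 2)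
  invFun p := ![p.1, p.2.1, p.2.2]
  left_inv x := by funext i; fin_cases i <;> rfl
  right_inv p := rfl

theorem conv3 (F : V → V → V → ℤ) :
    ∑ x : Fin 3 → V, F (x 0) (x 1) (x 2) = ∑ a, ∑ b, ∑ c, F a b c := by
  rw [← Equiv.sum_comp (e3 V).symm]
  simp only [Fintype.sum_prod_type]
  rfl

theorem img3 (x : Fin 3 → V) : univ.image x = {x 0, x 1, x 2} := by
  ext v; simp [Fin.exists_fin_succ, eq_comm]

theorem card_lt_of_noninj (k : ℕ) (x : Fin k → V) (h : ¬ Function.Injective x) :
    (univ.image x).card < k := by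
  have h1 : (univ.image x).card ≤ k := by
    calc _ ≤ (univ : Finset (Fin k)).card := card_image_le
      _ = k := by rw [card_univ, Fintype.card_fin]
  refine lt_of_le_of_ne h1 fun h2 => h ?_
  have h3 : (univ.image x).card = (univ : Finset (Fin k)).card := by
    rw [h2, card_univ, Fintype.card_fin]
  have h4 := card_image_iff.mp h3
  intro i j hij
  exact h4 (mem_coe.mpr (mem_univ _)) (mem_coe.mpr (mem_univ _)) hij

/-- the sum of the squares of the codegrees over ordered triples -/
theorem sum3 {H : Finset (Finset V)} (hH : ∀ e ∈ H, e.card = 4) :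
    ∑ a, ∑ b, ∑ c, (∑ d, (quad H a b c d : ℤ)) ^ 2
      = 6 * ∑ T ∈ (univ : Finset V).powersetCard 3, (codeg H T : ℤ) ^ 2 := by
  rw [← conv3 (fun a b c => (∑ d, (quad H a b c d : ℤ)) ^ 2)]
  have h := sum_tuple 3 (fun x : Fin 3 → V => (∑ d, (quad H (x 0) (x 1) (x 2) d : ℤ)) ^ 2)
    (fun T => (codeg H T : ℤ) ^ 2) ?_ ?_
  · rw [h]; rfl
  · intro x hx
    have h1 := card_lt_of_noninj 3 x hx
    rw [img3] at h1
    have h2 : ∀ d, quad H (x 0) (x 1) (x 2) d = 0 := by
      intro d
      unfold quad
      rw [if_neg]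
      intro h3
      have h4 := hH _ h3
      have h5 : ({x 0, x 1, x 2, d} : Finset V) = insert d {x 0, x 1, x 2} := by
        rw [pair_comm (x 2) d, insert_comm (x 1) d, insert_comm (x 0) d]
      rw [h5] at h4
      have h6 := card_insert_le d ({x 0, x 1, x 2} : Finset V)
      omega
    simp only [h2, Nat.cast_zero, sum_const_zero]
    norm_num
  · intro x hx
    have h1 := quad_codeg hH (hx.ne (show (0 : Fin 3) ≠ 1 by decide))
      (hx.ne (show (0 : Fin 3) ≠ 2 by decide)) (hx.ne (show (1 : Fin 3) ≠ 2 by decide))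
    show (∑ d, (quad H (x 0) (x 1) (x 2) d : ℤ)) ^ 2 = (codeg H (univ.image x) : ℤ) ^ 2
    rw [img3, ← h1]
    push_cast
    rfl

theorem bad_z {H : Finset (Finset V)} (hH : ∀ e ∈ H, e.card = 4) :
    ((badT (quad H)).card : ℤ) ≤ 2520 * ((odds H).card : ℤ) * (Fintype.card V : ℤ) ^ 2 := by
  exact_mod_cast bad_count hH

/-- the sum of the squares of the codegrees -/
theorem upperA {H : Finset (Finset V)} (hH : ∀ e ∈ H, e.card = 4) :
    384 * ∑ T ∈ (univ : Finset V).powersetCard 3, (codeg H T : ℤ) ^ 2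
      ≤ 31 * (Fintype.card V : ℤ) ^ 5 + 1411200 * ((odds H).card : ℤ) := by
  rcases Nat.eq_zero_or_pos (Fintype.card V) with h0 | h0
  · have he : IsEmpty V := Fintype.card_eq_zero_iff.mp h0
    have h1 : (univ : Finset V).powersetCard 3 = ∅ := by
      rw [powersetCard_eq_empty, card_univ, h0]; norm_num
    rw [h1, sum_empty]
    positivity
  · have h := A.boundR (quad_syw H)
    rw [sum3 hH] at h
    have hb := bad_z hH
    have hn : (0 : ℤ) < (Fintype.card V : ℤ) ^ 2 := by positivity
    refine le_of_mul_le_mul_left ?_ hn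
    nlinarith [h, hb]


end
end Pool.Agent.Helper27.E7
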